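import Pool.Agent.K7.H21.Sp.Quad

set_option autoImplicit false
set_option linter.unusedSectionVars false

/-!
# Graphs with a quadratic identity: reconstruction
-/

namespace Pool.Agent.K7.H21.Sp

open Finset Classical
open scoped Matrix
open Pool.Agent.H234RC (Hypo NonIso Reconstructible)

variable {V : Type} [Fintype V]

/-- the quadratic identity, in coordinates -/
def QI (G : SimpleGraph V) (p q x y z : ℝ) : Prop :=
  ∀ u w, s2 (am G) u w = p * am G u w + (if u = w then q else 0) + x + y * (dg G u + dg G w) +
    z * (dg G u * dg G w)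

lemma wk_one (G : SimpleGraph V) (u : V) : wk (am G) 1 u = dg G u := by
  unfold wk dg; rw [pow_one]

lemma QI_iff (G : SimpleGraph V) (p q x y z : ℝ) :
    QI G p q x y z ↔ ∀ u w, FF (am G) p q x y z u w = 0 := by
  unfold QI FF
  refine forall_congr' fun u => forall_congr' fun w => ?_
  rw [wk_one, wk_one, s2_eq, pow_one, pow_zero, Matrix.one_apply]
  constructor
  · intro h; rw [h]; split_ifs <;> ring
  · intro h
    split_ifs at h ⊢ <;> linarith

lemma QI_hyp {G H : SimpleGraph V} {π : V → Equiv.Perm V} (hV : 3 ≤ Fintype.card V)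
    (hH : Hypo G H π) (hN : NonIso G H) {p q x y z : ℝ} (h : QI G p q x y z) :
    QI H p q x y z := by
  obtain ⟨h1, -, h3⟩ := spectral hV hH hN
  rw [QI_iff] at h ⊢
  exact recog (am_symm G) (am_symm H) h1 h3 p q x y z h

lemma QI_rel {H : SimpleGraph V} {p q x y z : ℝ} (h : QI H p q x y z) (σ : Equiv.Perm V) :
    QI (rel H σ) p q x y z := by
  intro u w
  rw [s2_rel, h, am_rel, dg_rel, dg_rel]
  simp only [EmbeddingLike.apply_eq_iff_eq]

/-- the degree in the relabelled graph -/
lemma dg_rel_off {G H : SimpleGraph V} {π : V → Equiv.Perm V} (hH : Hypo G H π) (v u : V)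
    (hu : u ≠ v) : dg (rel H (π v)) u - am (rel H (π v)) u v = dg G u - am G u v := by
  unfold dg
  rw [← Finset.sum_erase_add _ _ (mem_univ v),
    ← Finset.sum_erase_add (s := univ) (fun w => am G u w) (mem_univ v)]
  rw [add_sub_cancel_right, add_sub_cancel_right]
  refine Finset.sum_congr rfl fun w hw => ?_
  have hw' : w ≠ v := (Finset.mem_erase.mp hw).1
  rw [am_apply, am_apply]
  simp only [rel_off hH v u w hu hw']

/-- the relation at one vertex -/
lemma quad_one {G H : SimpleGraph V} {π : V → Equiv.Perm V} (hH : Hypo G H π) (hN : NonIso G H)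
    {p q x y z : ℝ} (hG : QI G p q x y z) (hH' : QI H p q x y z) (v u : V) (hu : u ≠ v) :
    2 * (y + z * (dg G u - am G u v)) + (z - 1) * (am G u v + am (rel H (π v)) u v) = 0 := by
  set K := rel H (π v) with hK
  have hAB : ∀ x y, x ≠ v → y ≠ v → am G x y = am K x y := by
    intro x y hx hy
    rw [am_apply, am_apply]
    simp only [hK, rel_off hH v x y hx hy]
  have hQ : QI K p q x y z := QI_rel hH' _
  have hd : ∀ u, u ≠ v → dg K u = dg G u - am G u v + am K u v := fun u hu => by
    have := dg_rel_off hH v u hu
    rw [← hK] at this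
    linarith
  -- the bilinear relation
  have key : ∀ u w, u ≠ v → w ≠ v →
      (am G u v - am K u v) *
        (2 * (y + z * (dg G w - am G w v)) + (z - 1) * (am G w v + am K w v)) +
      (am G w v - am K w v) *
        (2 * (y + z * (dg G u - am G u v)) + (z - 1) * (am G u v + am K u v)) = 0 := by
    intro u w hu hw
    have h1 := off2 v hAB u w hu hw
    have h2 := hG u w
    have h3 := hQ u w
    rw [hd u hu, hd w hw] at h3
    rw [am_symm G v w, am_symm K v w, h2, h3, hAB u w hu hw] at h1
    linear_combination 2 * h1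
  have hne : ∃ t, t ≠ v ∧ am G t v ≠ am K t v := by
    by_contra hcon
    push Not at hcon
    refine rel_ne hN (π v) ?_
    rw [← hK]
    ext s t
    by_cases hs : s = v
    · subst hs
      by_cases ht : t = s
      · subst ht; simp
      · have := hcon t ht
        rw [am_apply, am_apply] at this
        rw [K.adj_comm, G.adj_comm]
        by_cases h1 : G.Adj t s <;> by_cases h2 : K.Adj t s <;> simp_all
    · by_cases ht : t = v
      · subst ht
        have := hcon s hs
        rw [am_apply, am_apply] at this
        by_cases h1 : G.Adj s t <;> by_cases h2 : K.Adj s t <;> simp_all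
      · exact rel_off hH v s t hs ht
  obtain ⟨t, ht, hne⟩ := hne
  have hne' : am G t v - am K t v ≠ 0 := sub_ne_zero.mpr hne
  have ht0 : 2 * (y + z * (dg G t - am G t v)) + (z - 1) * (am G t v + am K t v) = 0 := by
    have := key t t ht ht
    have h2 : (am G t v - am K t v) *
        (2 * (y + z * (dg G t - am G t v)) + (z - 1) * (am G t v + am K t v)) = 0 := by linarith
    exact (mul_eq_zero.mp h2).resolve_left hne'
  have := key t u ht hu
  rw [ht0, mul_zero, add_zero] at this
  exact (mul_eq_zero.mp this).resolve_left hne'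

/-- every card determines the graph up to a set of vertices which does not depend on the card -/
lemma quad_card {G H : SimpleGraph V} {π : V → Equiv.Perm V} (hV : 3 ≤ Fintype.card V)
    (hH : Hypo G H π) (hN : NonIso G H)
    {p q x y z : ℝ} (hG : QI G p q x y z) (hH' : QI H p q x y z) :
    z = -1 := by
  have hne : Nonempty V := Fintype.card_pos_iff.mp (by omega)
  have one := fun v u hu => quad_one hH hN hG hH' v u hu
  -- every vertex has a neighbour and a nonneighbour
  have nb : ∀ u, ∃ w, w ≠ u ∧ G.Adj u w := by
    intro u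
    obtain ⟨a, ha, b, hb, hab⟩ := conn hV hH hN {u} ⟨u, by simp⟩ (by
      obtain ⟨w, hw⟩ := Fintype.exists_ne_of_one_lt_card (by omega) u
      exact ⟨w, by simp [hw]⟩)
    rw [Finset.mem_singleton] at ha hb
    subst ha
    exact ⟨b, hb, hab⟩
  have nn : ∀ u, ∃ w, w ≠ u ∧ ¬ G.Adj u w := by
    intro u
    obtain ⟨a, ha, b, hb, hab⟩ := coconn hV hH hN {u} ⟨u, by simp⟩ (by
      obtain ⟨w, hw⟩ := Fintype.exists_ne_of_one_lt_card (by omega) u
      exact ⟨w, by simp [hw]⟩)
    rw [Finset.mem_singleton] at ha hb
    subst ha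
    exact ⟨b, hb, hab⟩
  by_contra hz
  -- then `z = 0` and `y = 1 / 2`
  have hzy : z = 0 ∧ y = 1 / 2 := by
    obtain ⟨w, hw, hw1⟩ := nb (Classical.arbitrary V)
    obtain ⟨w', hw', hw1'⟩ := nn (Classical.arbitrary V)
    have h1 := one w _ (Ne.symm hw)
    have h2 := one w' _ (Ne.symm hw')
    rw [am_adj hw1] at h1
    rw [am_nadj hw1'] at h2
    rcases am_01 (rel H (π w)) (Classical.arbitrary V) w with e | e <;>
      rcases am_01 (rel H (π w')) (Classical.arbitrary V) w' with e' | e' <;>
      rw [e] at h1 <;> rw [e'] at h2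
    · exact absurd (by linarith) hz
    · have : z = 0 := by linarith
      subst this
      exact ⟨rfl, by linarith⟩
    · exfalso; linarith
    · exact absurd (by linarith) hz
  obtain ⟨rfl, rfl⟩ := hzy
  -- then the graph is regular
  have hreg : ∀ v, 2 * dg G v = Fintype.card V - 1 := by
    intro v
    have h1 : dg H v = dg G v := dg_hyp hV hH hN v
    have h2 : dg (rel H (π v)) v = dg H v := by rw [dg_rel, hH.fix]
    have h3 : dg (rel H (π v)) v + dg G v = Fintype.card V - 1 := by
      unfold dg
      rw [← Finset.sum_add_distrib]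
      have : ∀ u ∈ univ, am (rel H (π v)) v u + am G v u = 1 - (if u = v then 1 else 0) := by
        intro u _
        by_cases hu : u = v
        · subst hu; rw [am_diag, am_diag]; simp
        · have := one v u hu
          rw [am_symm _ v u, am_symm G v u, if_neg hu]
          linarith
      rw [Finset.sum_congr rfl this, Finset.sum_sub_distrib]
      simp
    linarith
  refine nonreg hV hH hN fun v w => ?_
  have h1 := hreg v
  have h2 := hreg w
  linarith

theorem quad_main {G H : SimpleGraph V} {π : V → Equiv.Perm V} (hV : 3 ≤ Fintype.card V)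
    (hH : Hypo G H π) (hN : NonIso G H) {p q x y z : ℝ} (hG : QI G p q x y z) : False := by
  have hH' := QI_hyp hV hH hN hG
  have hz := quad_card hV hH hN hG hH'
  subst hz
  have one : ∀ v u, u ≠ v → am (rel H (π v)) u v = y - dg G u := by
    intro v u hu
    have := quad_one hH hN hG hH' v u hu
    linarith
  have one' : ∀ v u, u ≠ v → am (rel G (π v).symm) u v = y - dg H u := by
    intro v u hu
    have := quad_one (hypo_symm hH) (noniso_symm hN) hH' hG v u hu
    linarith
  have dgH : ∀ v, dg H v = dg G v := dg_hyp hV hH hN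
  have hne : Nonempty V := Fintype.card_pos_iff.mp (by omega)
  obtain ⟨u, v, huv⟩ := Fintype.exists_pair_of_one_lt_card (α := V) (by omega)
  -- the graph `L` is isomorphic to `G`
  set u' := π v u with hu'
  have hu'v : u' ≠ v := by
    intro e
    apply huv
    apply (π v).injective
    rw [← hu', e, hH.fix]
  set L := rel (rel G (π u').symm) (π v) with hL
  have L0 : ∀ s t, s ≠ u → t ≠ u → am L s t = am (rel H (π v)) s t := by
    intro s t hs ht
    have hs' : π v s ≠ u' := fun e => hs ((π v).injective e)
    have ht' : π v t ≠ u' := fun e => ht ((π v).injective e)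
    rw [hL, am_rel, am_rel H]
    rw [am_apply, am_apply]
    simp only [rel_off (hypo_symm hH) u' _ _ hs' ht']
  have L1 : ∀ s, s ≠ u → am L s u = y - dg (rel H (π v)) s := by
    intro s hs
    have hs' : π v s ≠ u' := fun e => hs ((π v).injective e)
    rw [hL, am_rel, dg_rel]
    exact one' u' _ hs'
  have dgs : ∀ s, s ≠ v → dg (rel H (π v)) s = y - am G s v := by
    intro s hs
    have h1 := dg_rel_off hH v s hs
    rw [one v s hs] at h1
    linarith
  have dgv : dg (rel H (π v)) v = dg G v := by rw [dg_rel, hH.fix, dgH]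
  -- swapping `u` and `v` maps `L` to `rel H (π u)`
  have offH : ∀ w s t, s ≠ w → t ≠ w → am (rel H (π w)) s t = am G s t := by
    intro w s t hs ht
    rw [am_apply, am_apply]
    simp only [rel_off hH w s t hs ht]
  have swu : Equiv.swap u v u = v := Equiv.swap_apply_left u v
  have swv : Equiv.swap u v v = u := Equiv.swap_apply_right u v
  have swo : ∀ s, s ≠ u → s ≠ v → Equiv.swap u v s = s :=
    fun s h1 h2 => Equiv.swap_apply_of_ne_of_ne h1 h2
  -- the rows of `v` and `u`
  have rv : ∀ s, s ≠ u → s ≠ v → am (rel H (π u)) (Equiv.swap u v s) (Equiv.swap u v v) =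
      am L s v := by
    intro s h1 h2
    rw [swv, swo s h1 h2, one u s h1, L0 s v h1 (Ne.symm huv), one v s h2]
  have ru : ∀ s, s ≠ u → s ≠ v → am (rel H (π u)) (Equiv.swap u v s) (Equiv.swap u v u) =
      am L s u := by
    intro s h1 h2
    rw [swu, swo s h1 h2, offH u s v h1 (Ne.symm huv), L1 s h1, dgs s h2]
    ring
  have ruv : am (rel H (π u)) (Equiv.swap u v u) (Equiv.swap u v v) = am L u v := by
    rw [swu, swv, one u v (Ne.symm huv), am_symm L u v, L1 v (Ne.symm huv), dgv]
  have sw : ∀ s t, am (rel H (π u)) (Equiv.swap u v s) (Equiv.swap u v t) = am L s t := by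
    intro s t
    by_cases hst : s = t
    · subst hst; rw [am_diag, am_diag]
    by_cases hsu : s = u
    · subst hsu
      by_cases htv : t = v
      · subst htv; exact ruv
      · rw [am_symm, ru t (Ne.symm hst) htv, am_symm]
    by_cases hsv : s = v
    · subst hsv
      by_cases htu : t = u
      · subst htu; rw [am_symm, ruv, am_symm]
      · rw [am_symm, rv t htu (Ne.symm hst), am_symm]
    by_cases htu : t = u
    · subst htu; exact ru s hsu hsv
    by_cases htv : t = v
    · subst htv; exact rv s hsu hsv
    rw [swo s hsu hsv, swo t htu htv, offH u s t hsu htu, L0 s t hsu htu, offH v s t hsv htv]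
  -- the isomorphism
  have sw' : ∀ s t, L.Adj s t ↔ (rel H (π u)).Adj (Equiv.swap u v s) (Equiv.swap u v t) := by
    intro s t
    have := sw s t
    rw [am_apply, am_apply] at this
    by_cases h1 : L.Adj s t <;>
      by_cases h2 : (rel H (π u)).Adj (Equiv.swap u v s) (Equiv.swap u v t) <;>
      simp [h1, h2] at this ⊢
  refine hN ⟨(π u').trans (((π v).symm.trans (Equiv.swap u v)).trans (π u)), fun s t => ?_⟩
  have h1 := sw' ((π v).symm (π u' s)) ((π v).symm (π u' t))
  rw [hL, rel_adj, rel_adj, rel_adj] at h1
  simp only [Equiv.apply_symm_apply, Equiv.symm_apply_apply] at h1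
  simp only [Equiv.trans_apply]
  exact h1.symm

end Pool.Agent.K7.H21.Sp
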