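import Pool.Agent.K7.H21.Sp.Quad
import Pool.Agent.K7.H21.Sp.QuadG

set_option autoImplicit false
set_option linter.unusedSectionVars false

/-!
# The numbers of common neighbours of the induced copies of a graph are reconstructible
-/

namespace Pool.Agent.K7.H21.Sp

open Finset Classical
open Pool.Agent.H234RC (Hypo NonIso Reconstructible)

variable {V : Type} [Fintype V] {k : ℕ}

/-- `f` is an induced copy of `F` in `G` -/
def Emb (F : SimpleGraph (Fin k)) (G : SimpleGraph V) (f : Fin k → V) : Prop :=
  Function.Injective f ∧ ∀ i j, G.Adj (f i) (f j) ↔ F.Adj i j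

/-- `f` avoids `v` -/
def Av (f : Fin k → V) (v : V) : Prop := ∀ i, f i ≠ v

/-- the set of the common neighbours of `f` -/
noncomputable def CN (G : SimpleGraph V) (f : Fin k → V) : Finset V :=
  univ.filter (fun y => ∀ i, G.Adj (f i) y)

/-- the number of the common neighbours of `f` -/
noncomputable def cn (G : SimpleGraph V) (f : Fin k → V) : ℕ := (CN G f).card

lemma mem_CN {G : SimpleGraph V} {f : Fin k → V} {y : V} : y ∈ CN G f ↔ ∀ i, G.Adj (f i) y := by
  simp [CN]

/-- the number of induced copies with `c` common neighbours -/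
noncomputable def mm (F : SimpleGraph (Fin k)) (G : SimpleGraph V) (c : ℕ) : ℕ :=
  ∑ f : Fin k → V, if Emb F G f ∧ cn G f = c then 1 else 0

/-- the same in a card -/
noncomputable def mc (F : SimpleGraph (Fin k)) (G : SimpleGraph V) (v : V) (c : ℕ) : ℕ :=
  ∑ f : Fin k → V, if Emb F G f ∧ Av f v ∧ ((CN G f).erase v).card = c then 1 else 0

/-- double counting for one copy -/
lemma one_copy (hk : 0 < k) (F : SimpleGraph (Fin k)) (G : SimpleGraph V) (f : Fin k → V)
    (hf : Emb F G f) (c : ℕ) :
    ∑ v : V, (if Emb F G f ∧ Av f v ∧ ((CN G f).erase v).card = c then 1 else 0) +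
      (if cn G f = c then k + c else 0) =
      (if cn G f = c then Fintype.card V else 0) + (if cn G f = c + 1 then c + 1 else 0) := by
  have hdis : Disjoint (univ.image f) (CN G f) := by
    rw [Finset.disjoint_left]
    intro y hy hy'
    rw [mem_image] at hy
    obtain ⟨i, -, rfl⟩ := hy
    rw [mem_CN] at hy'
    exact G.loopless.irrefl _ (hy' i)
  have himg : (univ.image f).card = k := by
    rw [Finset.card_image_of_injective _ hf.1]; simp
  have hpt : ∀ v, (if Emb F G f ∧ Av f v ∧ ((CN G f).erase v).card = c then 1 else 0) +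
      ((if v ∈ univ.image f then (if cn G f = c then 1 else 0) else 0) +
      (if v ∈ CN G f then (if cn G f = c then 1 else 0) else 0)) =
      (if cn G f = c then 1 else 0) + (if v ∈ CN G f then (if cn G f = c + 1 then 1 else 0) else 0) := by
    intro v
    by_cases h1 : v ∈ univ.image f
    · have h2 : v ∉ CN G f := Finset.disjoint_left.mp hdis h1
      have h3 : ¬ Av f v := by
        rw [mem_image] at h1
        obtain ⟨i, -, hi⟩ := h1
        exact fun h => h i hi
      simp [h1, h2, h3]
    · have h3 : Av f v := fun i e => h1 (mem_image.mpr ⟨i, mem_univ _, e⟩)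
      by_cases h2 : v ∈ CN G f
      · have h4 : ((CN G f).erase v).card + 1 = cn G f := Finset.card_erase_add_one h2
        simp only [h1, h2, h3, hf, if_true, if_false, true_and]
        by_cases h5 : ((CN G f).erase v).card = c
        · have h6 : cn G f = c + 1 := by omega
          have h7 : cn G f ≠ c := by omega
          simp [h5, h6]
        · have h6 : cn G f ≠ c + 1 := by omega
          simp [h5, h6]
      · have h4 : (CN G f).erase v = CN G f := Finset.erase_eq_of_notMem h2
        have h5 : (CN G f).card = cn G f := rfl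
        simp only [h1, h2, h3, hf, h4, h5, if_false, true_and, add_zero]
  have hsum := Finset.sum_congr rfl (fun v (_ : v ∈ (univ : Finset V)) => hpt v)
  rw [Finset.sum_add_distrib, Finset.sum_add_distrib, Finset.sum_add_distrib] at hsum
  rw [Finset.sum_ite_mem, Finset.sum_ite_mem, Finset.sum_ite_mem] at hsum
  simp only [Finset.univ_inter, Finset.sum_const, smul_eq_mul, himg, Finset.card_univ] at hsum
  have hcn : (CN G f).card = cn G f := rfl
  rw [hcn] at hsum
  by_cases h1 : cn G f = c
  · have h2 : cn G f ≠ c + 1 := by omega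
    simp only [h1, if_true] at hsum ⊢
    simp at hsum ⊢
    omega
  · by_cases h2 : cn G f = c + 1
    · simp only [h2, if_true] at hsum ⊢
      simp at hsum ⊢
      omega
    · simp [h1, h2] at hsum ⊢
      omega

/-- Kelly's lemma -/
lemma kelly (hk : 0 < k) (F : SimpleGraph (Fin k)) (G : SimpleGraph V) (c : ℕ) :
    ∑ v : V, mc F G v c + (k + c) * mm F G c =
      Fintype.card V * mm F G c + (c + 1) * mm F G (c + 1) := by
  unfold mc mm
  rw [Finset.sum_comm, Finset.mul_sum, Finset.mul_sum, Finset.mul_sum, ← Finset.sum_add_distrib,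
    ← Finset.sum_add_distrib]
  refine Finset.sum_congr rfl fun f _ => ?_
  by_cases hf : Emb F G f
  · have := one_copy hk F G f hf c
    simp only [hf, true_and] at this ⊢
    simpa using this
  · simp [hf]

/-- the copies in hypomorphic graphs -/
lemma mc_eq {G H : SimpleGraph V} {π : V → Equiv.Perm V} (hH : Hypo G H π)
    (F : SimpleGraph (Fin k)) (v : V) (c : ℕ) : mc F H v c = mc F G v c := by
  unfold mc
  rw [← Equiv.sum_comp (Equiv.arrowCongr (Equiv.refl (Fin k)) (π v))]
  refine Finset.sum_congr rfl fun f _ => ?_
  have hfv : ∀ i, (Equiv.arrowCongr (Equiv.refl (Fin k)) (π v)) f i = π v (f i) := fun i => rfl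
  have hav : Av ((Equiv.arrowCongr (Equiv.refl (Fin k)) (π v)) f) v ↔ Av f v := by
    refine forall_congr' fun i => ?_
    rw [hfv]
    constructor
    · intro h e; exact h (by rw [e, hH.fix])
    · intro h e; exact h ((π v).injective (by rw [e, hH.fix]))
  by_cases hav' : Av f v
  · have hE : Emb F H ((Equiv.arrowCongr (Equiv.refl (Fin k)) (π v)) f) ↔ Emb F G f := by
      unfold Emb
      refine and_congr ?_ ?_
      · constructor
        · intro h i j hij
          exact h (by rw [hfv, hfv, hij])
        · intro h i j hij
          rw [hfv, hfv] at hij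
          exact h ((π v).injective hij)
      · refine forall_congr' fun i => forall_congr' fun j => ?_
        rw [hfv, hfv, hH.adj v _ _ (hav' i) (hav' j)]
    have hC : ((CN H ((Equiv.arrowCongr (Equiv.refl (Fin k)) (π v)) f)).erase v).card =
        ((CN G f).erase v).card := by
      rw [← Finset.card_map (π v).toEmbedding (s := (CN G f).erase v)]
      congr 1
      ext y
      rw [Finset.mem_erase, Finset.mem_map_equiv, Finset.mem_erase, mem_CN, mem_CN]
      have h1 : (π v).symm y ≠ v ↔ y ≠ v := by
        rw [not_iff_not, Equiv.symm_apply_eq, hH.fix]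
      rw [h1]
      refine and_congr_right fun hy => forall_congr' fun i => ?_
      have := hH.adj v (f i) ((π v).symm y) (hav' i) (h1.mpr hy)
      rw [Equiv.apply_symm_apply] at this
      rw [hfv]
      exact this
    rw [hE, hav, hC]
  · have h1 : ¬ Av ((Equiv.arrowCongr (Equiv.refl (Fin k)) (π v)) f) v := by
      rwa [hav]
    simp only [hav', h1, false_and, and_false]

/-- no copy has all other vertices as common neighbours -/
lemma mm_top {G H : SimpleGraph V} {π : V → Equiv.Perm V} (hV : 3 ≤ Fintype.card V)
    (hH : Hypo G H π) (hN : NonIso G H) (hk : 0 < k) (hkn : k < Fintype.card V)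
    (F : SimpleGraph (Fin k)) (c : ℕ) (hc : Fintype.card V ≤ k + c) : mm F G c = 0 := by
  unfold mm
  refine Finset.sum_eq_zero fun f _ => ?_
  rw [if_neg]
  rintro ⟨hf, hcn⟩
  have himg : (univ.image f).card = k := by
    rw [Finset.card_image_of_injective _ hf.1]; simp
  have hne : (univ.image f).Nonempty := ⟨f ⟨0, hk⟩, mem_image_of_mem _ (mem_univ _)⟩
  have hne2 : (univ \ univ.image f).Nonempty := by
    rw [← Finset.card_pos, Finset.card_sdiff_of_subset (subset_univ _), himg, Finset.card_univ]
    omega
  obtain ⟨x, hx, y, hy, hxy⟩ := coconn hV hH hN (univ.image f) hne hne2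
  -- the common neighbours are all vertices outside the image
  have hsub : CN G f ⊆ (univ \ univ.image f).erase y := by
    intro z hz
    rw [mem_CN] at hz
    rw [Finset.mem_erase, Finset.mem_sdiff]
    refine ⟨?_, mem_univ _, ?_⟩
    · rintro rfl
      rw [mem_image] at hx
      obtain ⟨i, -, rfl⟩ := hx
      exact hxy (hz i)
    · intro hz'
      rw [mem_image] at hz'
      obtain ⟨i, -, rfl⟩ := hz'
      exact G.loopless.irrefl _ (hz i)
  have h1 := Finset.card_le_card hsub
  rw [Finset.card_erase_of_mem (by simp [Finset.mem_sdiff] at hy ⊢; exact hy),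
    Finset.card_sdiff_of_subset (subset_univ _), himg, Finset.card_univ] at h1
  have h2 : (CN G f).card = c := hcn
  omega

/-- **recognition** -/
theorem mm_eq {G H : SimpleGraph V} {π : V → Equiv.Perm V} (hV : 3 ≤ Fintype.card V)
    (hH : Hypo G H π) (hN : NonIso G H) (hk : 0 < k) (hkn : k < Fintype.card V)
    (F : SimpleGraph (Fin k)) (c : ℕ) : mm F H c = mm F G c := by
  have key : ∀ t c, Fintype.card V ≤ k + c + t → mm F H c = mm F G c := by
    intro t
    induction t with
    | zero =>
      intro c hc
      rw [mm_top hV hH hN hk hkn F c (by omega),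
        mm_top hV (hypo_symm hH) (noniso_symm hN) hk hkn F c (by omega)]
    | succ t ih =>
      intro c hc
      by_cases hc' : Fintype.card V ≤ k + c
      · rw [mm_top hV hH hN hk hkn F c (by omega),
          mm_top hV (hypo_symm hH) (noniso_symm hN) hk hkn F c (by omega)]
      · have h1 := ih (c + 1) (by omega)
        have h2 := kelly hk F G c
        have h3 := kelly hk F H c
        rw [Finset.sum_congr rfl fun v _ => mc_eq hH F v c, h1] at h3
        have h4 : (Fintype.card V : ℤ) * mm F H c - (k + c) * mm F H c =
            Fintype.card V * mm F G c - (k + c) * mm F G c := by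
          have h2' : ((∑ v : V, mc F G v c : ℕ) : ℤ) + (k + c) * mm F G c =
            Fintype.card V * mm F G c + (c + 1) * mm F G (c + 1) := by exact_mod_cast h2
          have h3' : ((∑ v : V, mc F G v c : ℕ) : ℤ) + (k + c) * mm F H c =
            Fintype.card V * mm F H c + (c + 1) * mm F G (c + 1) := by exact_mod_cast h3
          linarith
        have h5 : ((Fintype.card V : ℤ) - (k + c)) * (mm F H c - mm F G c) = 0 := by linarith
        have h6 : ((Fintype.card V : ℤ) - (k + c)) ≠ 0 := by
          have : ((k + c : ℕ) : ℤ) < Fintype.card V := by exact_mod_cast (by omega)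
          push_cast at this
          linarith
        have h7 := (mul_eq_zero.mp h5).resolve_left h6
        have : (mm F H c : ℤ) = mm F G c := by linarith
        exact_mod_cast this
  exact key (Fintype.card V) c (by omega)

/-- a copy in a hypomorphic graph gives a copy with the same number of common neighbours -/
lemma copy_of {G H : SimpleGraph V} {π : V → Equiv.Perm V} (hV : 3 ≤ Fintype.card V)
    (hH : Hypo G H π) (hN : NonIso G H) (hk : 0 < k) (hkn : k < Fintype.card V)
    (F : SimpleGraph (Fin k)) (σ : Equiv.Perm V) (f : Fin k → V) (hf : Emb F (rel H σ) f) :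
    ∃ g, Emb F G g ∧ cn G g = cn (rel H σ) f := by
  have h1 : Emb F H (fun i => σ (f i)) :=
    ⟨fun i j hij => hf.1 (σ.injective hij), fun i j => hf.2 i j⟩
  have h2 : cn H (fun i => σ (f i)) = cn (rel H σ) f := by
    unfold cn
    rw [← Finset.card_map σ.toEmbedding (s := CN (rel H σ) f)]
    congr 1
    ext y
    rw [Finset.mem_map_equiv, mem_CN, mem_CN]
    refine forall_congr' fun i => ?_
    rw [rel_adj, Equiv.apply_symm_apply]
  by_contra hcon
  push Not at hcon
  have h3 : mm F G (cn (rel H σ) f) = 0 := by
    unfold mm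
    refine Finset.sum_eq_zero fun g _ => ?_
    rw [if_neg]
    rintro ⟨hg, hg2⟩
    exact hcon g hg hg2
  have h4 : 0 < mm F H (cn (rel H σ) f) := by
    unfold mm
    refine Finset.sum_pos' (fun _ _ => Nat.zero_le _) ⟨fun i => σ (f i), mem_univ _, ?_⟩
    rw [if_pos ⟨h1, h2⟩]
    norm_num
  rw [mm_eq hV hH hN hk hkn, h3] at h4
  omega

end Pool.Agent.K7.H21.Sp
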