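import Pool.Agent.K7.H21.Sp.Cnt

set_option autoImplicit false
set_option linter.unusedSectionVars false

/-!
# Covered neighbourhoods
-/

namespace Pool.Agent.K7.H21.Sp

open Finset Classical
open Pool.Agent.H234RC (Hypo NonIso Reconstructible)

variable {V : Type} [Fintype V] {k : ℕ}

section
variable {G H : SimpleGraph V} {π : V → Equiv.Perm V}

/-- sums over degrees -/
lemma sum_dg (hV : 3 ≤ Fintype.card V) (hH : Hypo G H π) (hN : NonIso G H) (v : V) (f : ℝ → ℝ) :
    ∑ x, f (dg (rel H (π v)) x) = ∑ x, f (dg G x) := by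
  rw [← Equiv.sum_comp (π v) (fun x => f (dg G x))]
  exact Finset.sum_congr rfl fun x _ => by rw [dg_rel, dg_hyp hV hH hN]

lemma dg_relv (hV : 3 ≤ Fintype.card V) (hH : Hypo G H π) (hN : NonIso G H) (v : V) :
    dg (rel H (π v)) v = dg G v := by rw [dg_rel, hH.fix, dg_hyp hV hH hN]

lemma dg_nat (G : SimpleGraph V) (x : V) : ∃ n : ℕ, dg G x = n := ⟨_, dg_eq G x⟩

/-- a lost neighbour has a partner -/
lemma plus_minus (hV : 3 ≤ Fintype.card V) (hH : Hypo G H π) (hN : NonIso G H) (v u : V)
    (h1 : G.Adj v u) (h2 : ¬ (rel H (π v)).Adj v u) :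
    ∃ w, w ≠ v ∧ ¬ G.Adj v w ∧ (rel H (π v)).Adj v w ∧ dg G u = dg G w + 1 := by
  by_contra hcon
  push Not at hcon
  set K := rel H (π v) with hK
  have hs := sum_dg hV hH hN v (fun t => if dg G u ≤ t then 1 else 0)
  rw [← hK] at hs
  have huv : u ≠ v := h1.ne'
  have hle : ∀ x ∈ univ, (if dg G u ≤ dg K x then (1:ℝ) else 0) ≤ if dg G u ≤ dg G x then 1 else 0 := by
    intro x _
    by_cases hx : x = v
    · subst hx; rw [hK, dg_relv hV hH hN]
    · have hd := dg_rel_off hH v x hx
      rw [← hK] at hd
      by_cases hxG : G.Adj v x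
      · have h3 : am G x v = 1 := am_adj hxG.symm
        have h4 : am K x v ≤ 1 := by rcases am_01 K x v with h | h <;> rw [h] <;> norm_num
        split_ifs with h5 h6 <;> first | linarith | norm_num
      · have h3 : am G x v = 0 := am_nadj (fun h => hxG h.symm)
        by_cases hxK : K.Adj v x
        · have h4 : am K x v = 1 := am_adj hxK.symm
          have h5 := hcon x hx hxG hxK
          obtain ⟨m, hm⟩ := dg_nat G u
          obtain ⟨m', hm'⟩ := dg_nat G x
          obtain ⟨m'', hm''⟩ := dg_nat K x
          split_ifs with h6 h7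
          · norm_num
          · exfalso
            apply h5
            have e1 : m'' = m' + 1 := by
              have : (m'' : ℝ) = m' + 1 := by linarith
              exact_mod_cast this
            have e2 : m ≤ m'' := by
              have : (m : ℝ) ≤ m'' := by linarith
              exact_mod_cast this
            have e3 : ¬ m ≤ m' := by
              intro h
              apply h7
              have : (m : ℝ) ≤ m' := by exact_mod_cast h
              linarith
            have e4 : m = m' + 1 := by omega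
            rw [hm, hm', e4]
            push_cast
            ring
          · norm_num
          · norm_num
        · have h4 : am K x v = 0 := am_nadj (fun h => hxK h.symm)
          have : dg K x = dg G x := by linarith
          rw [this]
  have hlt : (if dg G u ≤ dg K u then (1:ℝ) else 0) < if dg G u ≤ dg G u then 1 else 0 := by
    have hd := dg_rel_off hH v u huv
    rw [← hK, am_adj h1.symm, am_nadj (fun h => h2 h.symm)] at hd
    rw [if_neg (by linarith), if_pos le_rfl]
    norm_num
  have := Finset.sum_lt_sum hle ⟨u, mem_univ _, hlt⟩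
  linarith

/-- there is a lost neighbour -/
lemma exists_plus (hV : 3 ≤ Fintype.card V) (hH : Hypo G H π) (hN : NonIso G H) (v : V) :
    ∃ u, G.Adj v u ∧ ¬ (rel H (π v)).Adj v u := by
  by_contra hcon
  push Not at hcon
  set K := rel H (π v) with hK
  have h1 := dg_relv hV hH hN v
  rw [← hK] at h1
  unfold dg at h1
  have h2 : ∀ x ∈ univ, am G v x ≤ am K v x := by
    intro x _
    by_cases hx : G.Adj v x
    · rw [am_adj hx, am_adj (hcon x hx)]
    · rw [am_nadj hx]; exact am_nonneg _ _ _
  have h3 := (Finset.sum_eq_sum_iff_of_le h2).mp h1.symm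
  refine rel_ne hN (π v) ?_
  rw [← hK]
  have h4 : ∀ x, K.Adj v x ↔ G.Adj v x := by
    intro x
    have := h3 x (mem_univ _)
    rw [am_apply, am_apply] at this
    by_cases e1 : G.Adj v x <;> by_cases e2 : K.Adj v x <;> simp_all
  ext s t
  by_cases hs : s = v
  · subst hs; exact h4 t
  · by_cases ht : t = v
    · subst ht; rw [K.adj_comm, G.adj_comm]; exact h4 s
    · exact rel_off hH v s t hs ht

/-- the vertex `u` is secured as a neighbour of `v` -/
def Cov (G : SimpleGraph V) (v u : V) : Prop :=
  ∃ (k : ℕ) (F : SimpleGraph (Fin k)) (f : Fin k → V), Emb F G f ∧ (∃ i, f i = u) ∧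
    (∀ i, G.Adj v (f i)) ∧ ∀ g, Emb F G g → cn G f ≠ cn G g + 1

/-- the number of common neighbours of a copy in the relabelled graph -/
lemma cn_drop (hH : Hypo G H π) (v : V) (f : Fin k → V) (hfv : ∀ i, G.Adj v (f i))
    (i : Fin k) (hi : ¬ (rel H (π v)).Adj v (f i)) :
    cn G f = cn (rel H (π v)) f + 1 := by
  set K := rel H (π v) with hK
  have hav : ∀ i, f i ≠ v := fun i => (hfv i).ne'
  have hvG : v ∈ CN G f := by
    rw [mem_CN]; exact fun i => (hfv i).symm
  have hvK : v ∉ CN K f := by
    rw [mem_CN]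
    intro h
    exact hi (h i).symm
  have he : CN K f = (CN G f).erase v := by
    ext y
    rw [Finset.mem_erase]
    by_cases hy : y = v
    · subst hy
      simp [hvK]
    · rw [mem_CN, mem_CN]
      simp only [ne_eq, hy, not_false_eq_true, true_and]
      exact forall_congr' fun j => rel_off hH v _ _ (hav j) hy
  unfold cn
  rw [he, Finset.card_erase_add_one hvG]

/-- secured neighbours are not lost -/
lemma cov_keep (hV : 3 ≤ Fintype.card V) (hH : Hypo G H π) (hN : NonIso G H) (v u : V)
    (hu : ¬ (rel H (π v)).Adj v u) (hc : Cov G v u) : False := by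
  obtain ⟨k, F, f, hf, ⟨i, hi⟩, hfv, hgap⟩ := hc
  have hav : ∀ i, f i ≠ v := fun i => (hfv i).ne'
  have hk : 0 < k := by
    rcases Nat.eq_zero_or_pos k with h | h
    · subst h; exact i.elim0
    · exact h
  have hkn : k < Fintype.card V := by
    have h1 : (univ.image f).card = k := by
      rw [Finset.card_image_of_injective _ hf.1]; simp
    have h2 : univ.image f ⊆ univ.erase v := by
      intro y hy
      rw [mem_image] at hy
      obtain ⟨j, -, rfl⟩ := hy
      exact Finset.mem_erase.mpr ⟨hav j, mem_univ _⟩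
    have h3 := Finset.card_le_card h2
    rw [h1, Finset.card_erase_of_mem (mem_univ _), Finset.card_univ] at h3
    omega
  have hfK : Emb F (rel H (π v)) f := by
    refine ⟨hf.1, fun i j => ?_⟩
    rw [← hf.2 i j]
    exact rel_off hH v _ _ (hav i) (hav j)
  obtain ⟨g, hg, hg2⟩ := copy_of hV hH hN hk hkn F (π v) f hfK
  apply hgap g hg
  rw [hg2]
  exact cn_drop hH v f hfv i (hi ▸ hu)

lemma hypo_compl (hH : Hypo G H π) : Hypo Gᶜ Hᶜ π where
  fix v := hH.fix v
  adj v x y hx hy := by
    rw [SimpleGraph.compl_adj, SimpleGraph.compl_adj, hH.adj v x y hx hy,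
      (π v).injective.ne_iff]

lemma noniso_compl (hN : NonIso G H) : NonIso Gᶜ Hᶜ := by
  rintro ⟨σ, h⟩
  refine hN ⟨σ, fun x y => ?_⟩
  have := h x y
  rw [SimpleGraph.compl_adj, SimpleGraph.compl_adj, σ.injective.ne_iff] at this
  by_cases hxy : x = y
  · subst hxy; simp
  · constructor
    · intro h1
      by_contra h2
      exact (this.mpr ⟨hxy, h2⟩).2 h1
    · intro h1
      by_contra h2
      exact (this.mp ⟨hxy, h2⟩).2 h1

/-- **main theorem** -/
theorem cover_main (hV : 3 ≤ Fintype.card V) (hH : Hypo G H π) (hN : NonIso G H) (v : V)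
    (h : ∀ u w, G.Adj v u → w ≠ v → ¬ G.Adj v w → dg G u = dg G w + 1 →
      Cov G v u ∨ Cov Gᶜ v w) : False := by
  obtain ⟨u, hu1, hu2⟩ := exists_plus hV hH hN v
  obtain ⟨w, hw, hw1, hw2, hw3⟩ := plus_minus hV hH hN v u hu1 hu2
  rcases h u w hu1 hw hw1 hw3 with h1 | h1
  · exact cov_keep hV hH hN v u hu2 h1
  · refine cov_keep hV (hypo_compl hH) (noniso_compl hN) v w ?_ h1
    intro h2
    rw [rel_adj, SimpleGraph.compl_adj] at h2
    exact h2.2 hw2

end

end Pool.Agent.K7.H21.Sp
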