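import Pool.Agent.K7.H21.Sp.FL

set_option autoImplicit false
set_option linter.unusedSectionVars false

/-!
# Deleting a vertex
-/

namespace Pool.Agent.K7.H21.Sp

open Matrix Polynomial

variable {V : Type} [Fintype V] [DecidableEq V]

/-- the matrix `A` with row and column `v` replaced by zero -/
def pun (A : Matrix V V ℝ) (v : V) : Matrix V V ℝ :=
  Matrix.of (fun x y => if x = v ∨ y = v then 0 else A x y)

lemma pun_apply (A : Matrix V V ℝ) (v x y : V) :
    pun A v x y = if x = v ∨ y = v then 0 else A x y := rfl

lemma charpoly_pun (A : Matrix V V ℝ) (v : V) : (pun A v).charpoly = X * Cm A v v := by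
  have h1 : charmatrix (pun A v) =
      updateRow (charmatrix (pun A v)) v ((X : ℝ[X]) • (Pi.single v 1 : V → ℝ[X])) := by
    ext1 x y
    by_cases hx : x = v
    · subst hx
      rw [updateRow_self]
      by_cases hy : y = x
      · subst hy
        simp [charmatrix_apply_eq, pun_apply]
      · rw [charmatrix_apply_ne _ _ _ (Ne.symm hy)]
        simp [pun_apply, hy]
    · rw [updateRow_ne hx]
  have h2 : (updateRow (charmatrix (pun A v)) v (Pi.single v 1 : V → ℝ[X])).det =
      (updateRow (charmatrix A) v (Pi.single v 1 : V → ℝ[X])).det := by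
    refine det_eq_of_forall_row_eq_smul_add_const (fun x => if x = v then 0 else C (A x v)) v
      (by simp) (fun x y => ?_)
    by_cases hx : x = v
    · subst hx; simp
    · rw [updateRow_ne hx, updateRow_ne hx, updateRow_self]
      by_cases hy : y = v
      · subst hy
        rw [charmatrix_apply_ne _ _ _ hx, charmatrix_apply_ne _ _ _ hx]
        simp [pun_apply, hx]
      · simp only [charmatrix_apply, pun_apply, hx, hy, or_self, if_false, Pi.single_eq_of_ne hy,
          mul_zero, add_zero]
  rw [Matrix.charpoly, h1, det_updateRow_smul, h2, Cm, adjugate_apply]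

/-- invariance under a permutation -/
lemma charpoly_perm (A B : Matrix V V ℝ) (σ : Equiv.Perm V) (h : ∀ x y, B (σ x) (σ y) = A x y) :
    B.charpoly = A.charpoly := by
  have : B = reindex σ σ A := by
    ext x y
    rw [reindex_apply, submatrix_apply]
    rw [← h]
    simp
  rw [this, charpoly_reindex]

lemma Cm_perm (A B : Matrix V V ℝ) (σ : Equiv.Perm V) (h : ∀ x y, B (σ x) (σ y) = A x y)
    (x y : V) : Cm B (σ x) (σ y) = Cm A x y := by
  have hB : charmatrix B = (charmatrix A).submatrix σ.symm σ.symm := by
    ext1 x y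
    rw [submatrix_apply, charmatrix_apply, charmatrix_apply, ← h]
    simp [diagonal_apply]
  unfold Cm
  rw [hB]
  rw [adjugate_submatrix_equiv_self]
  simp

lemma Cm_diag_perm (A B : Matrix V V ℝ) (v : V) (σ : Equiv.Perm V) (hσ : σ v = v)
    (h : ∀ x y, x ≠ v → y ≠ v → B (σ x) (σ y) = A x y) : Cm B v v = Cm A v v := by
  have h1 : (pun B v).charpoly = (pun A v).charpoly := by
    refine charpoly_perm _ _ σ (fun x y => ?_)
    have hx : σ x = v ↔ x = v := ⟨fun e => σ.injective (e.trans hσ.symm), fun e => by rw [e, hσ]⟩
    have hy : σ y = v ↔ y = v := ⟨fun e => σ.injective (e.trans hσ.symm), fun e => by rw [e, hσ]⟩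
    rw [pun_apply, pun_apply]
    simp only [hx, hy]
    by_cases h' : x = v ∨ y = v
    · rw [if_pos h', if_pos h']
    · rw [if_neg h', if_neg h']
      rw [not_or] at h'
      exact h x y h'.1 h'.2
  rw [charpoly_pun, charpoly_pun] at h1
  exact mul_left_cancel₀ X_ne_zero h1

end Pool.Agent.K7.H21.Sp
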