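import Pool.Agent.H558R2.FL

set_option autoImplicit false

/-!
# The adjugate of the characteristic matrix

Coefficients of `adj (X - A)`, the rank one update of the determinant, deletion of a row and column.
-/

namespace Pool.Agent.K7.H21.Sp

open Matrix Polynomial

variable {V : Type} [Fintype V] [DecidableEq V]

/-- the adjugate of `X - A` -/
noncomputable def Cm (A : Matrix V V ℝ) : Matrix V V ℝ[X] := adjugate (charmatrix A)

/-- the `k`-th coefficient of `adj (X - A)` -/
noncomputable def cf (A : Matrix V V ℝ) (k : ℕ) : Matrix V V ℝ :=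
  (matPolyEquiv (Cm A)).coeff k

lemma cf_apply (A : Matrix V V ℝ) (k : ℕ) (x y : V) : cf A k x y = (Cm A x y).coeff k := by
  unfold cf; rw [matPolyEquiv_coeff_apply]

lemma cf_mul (A : Matrix V V ℝ) :
    (X - C A) * matPolyEquiv (Cm A) = A.charpoly.map (algebraMap ℝ (Matrix V V ℝ)) := by
  have h : A.charpoly • (1 : Matrix V V ℝ[X]) = charmatrix A * Cm A := (mul_adjugate _).symm
  have h2 := congrArg matPolyEquiv h
  rw [map_mul, matPolyEquiv_charmatrix, matPolyEquiv_smul_one] at h2
  exact h2.symm

lemma cf_rec (A : Matrix V V ℝ) (k : ℕ) :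
    cf A k = A * cf A (k + 1) + A.charpoly.coeff (k + 1) • 1 := by
  have h := congrArg (fun p => coeff p (k + 1)) (cf_mul A)
  simp only [coeff_map, sub_mul, coeff_sub, coeff_X_mul, coeff_C_mul,
    Algebra.algebraMap_eq_smul_one] at h
  unfold cf
  rw [← h]
  abel

lemma trace_cf (A : Matrix V V ℝ) (k : ℕ) :
    trace (cf A k) = ((k : ℝ) + 1) * A.charpoly.coeff (k + 1) := by
  have h := congrArg (fun p => coeff p k) (Pool.Agent.H558R2.derivative_charpoly A)
  simp only [coeff_derivative, trace, diag_apply, finsetSum_coeff] at h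
  unfold trace
  simp only [diag_apply, cf_apply]
  unfold Cm
  rw [← h]
  ring

lemma cf_eq_zero (A : Matrix V V ℝ) (k : ℕ) (hk : Fintype.card V ≤ k) : cf A k = 0 := by
  set N := (matPolyEquiv (Cm A)).natDegree + 1 with hN
  have key : ∀ j, ∀ k, Fintype.card V ≤ k → N ≤ k + j → cf A k = 0 := by
    intro j
    induction j with
    | zero =>
      intro k _ h
      exact coeff_eq_zero_of_natDegree_lt (by omega)
    | succ j ih =>
      intro k hk h
      rw [cf_rec, ih (k + 1) (by omega) (by omega)]
      have : A.charpoly.coeff (k + 1) = 0 := by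
        apply coeff_eq_zero_of_natDegree_lt
        rw [charpoly_natDegree_eq_dim]
        omega
      rw [this]
      simp
  exact key N k hk (by omega)

lemma charpoly_top (A : Matrix V V ℝ) : A.charpoly.coeff (Fintype.card V) = 1 := by
  have h2 := A.charpoly_monic
  rwa [Monic, leadingCoeff, charpoly_natDegree_eq_dim] at h2

lemma cf_top (A : Matrix V V ℝ) (k : ℕ) (hk : k + 1 = Fintype.card V) : cf A k = 1 := by
  rw [cf_rec, cf_eq_zero A (k + 1) (by omega), hk, charpoly_top]
  simp

lemma cf_top' (A : Matrix V V ℝ) (htr : trace A = 0) (k : ℕ) (hk : k + 2 = Fintype.card V) :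
    cf A k = A := by
  rw [cf_rec, cf_top A (k + 1) (by omega)]
  have : A.charpoly.coeff (k + 1) = 0 := by
    have : Nonempty V := Fintype.card_pos_iff.mp (by omega)
    have h := trace_eq_neg_charpoly_coeff A
    rw [htr] at h
    have e : Fintype.card V - 1 = k + 1 := by omega
    rw [e] at h
    linarith
  rw [this]
  simp

/-- Horner form -/
lemma cf_horner (A : Matrix V V ℝ) (j : ℕ) : ∀ k, k + j + 1 = Fintype.card V →
    cf A k = A ^ j + ∑ i ∈ Finset.range j, A.charpoly.coeff (k + 1 + i) • A ^ i := by
  induction j with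
  | zero =>
    intro k hk
    rw [cf_top A k (by omega)]
    simp
  | succ j ih =>
    intro k hk
    rw [cf_rec, ih (k + 1) (by omega), Finset.sum_range_succ', Matrix.mul_add, ← pow_succ',
      Finset.mul_sum, pow_zero, add_zero, add_assoc]
    congr 2
    refine Finset.sum_congr rfl fun i _ => ?_
    rw [Matrix.mul_smul, ← pow_succ', show k + 1 + 1 + i = k + 1 + (i + 1) by ring]

lemma det_add_rank_one (M : Matrix V V ℝ[X]) (hM : M.det ≠ 0) :
    (M + Matrix.of (fun _ _ => 1)).det = M.det + ∑ x, ∑ y, adjugate M x y := by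
  have hinj : Function.Injective (algebraMap ℝ[X] (FractionRing ℝ[X])) :=
    IsFractionRing.injective _ _
  apply hinj
  set f := algebraMap ℝ[X] (FractionRing ℝ[X]) with hf
  have hd : f M.det = (M.map f).det := RingHom.map_det f M
  have ha : ∀ x y, f (adjugate M x y) = adjugate (M.map f) x y := by
    intro x y
    have := RingHom.map_adjugate f M
    have h := congrFun (congrFun this x) y
    exact h
  have h00 : (M.map f).det ≠ 0 := by
    rw [← hd]
    exact fun h => hM (hinj (by rw [h, map_zero]))
  have h0 : IsUnit (M.map f).det := isUnit_iff_ne_zero.mpr h00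
  have h1 : (M + Matrix.of (fun _ _ => 1)).map f =
      M.map f + replicateCol Unit (fun _ : V => (1 : FractionRing ℝ[X])) *
        replicateRow Unit (fun _ : V => (1 : FractionRing ℝ[X])) := by
    ext x y
    simp [Matrix.mul_apply]
  have h2 : f (M + Matrix.of (fun _ _ => 1)).det =
      ((M + Matrix.of (fun _ _ => 1)).map f).det := RingHom.map_det f _
  have h3 : (1 + replicateRow Unit (fun _ : V => (1 : FractionRing ℝ[X])) * (M.map f)⁻¹ *
      replicateCol Unit (fun _ : V => (1 : FractionRing ℝ[X]))).det =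
      1 + ∑ y, ∑ x, (M.map f)⁻¹ x y := by
    rw [det_unique]
    simp [Matrix.mul_apply]
  rw [h2, h1, det_add_replicateCol_mul_replicateRow h0, h3, map_add, hd, mul_add, mul_one]
  congr 1
  rw [map_sum]
  simp only [map_sum, ha]
  simp only [Matrix.inv_def, Matrix.smul_apply, smul_eq_mul, Ring.inverse_eq_inv']
  refine Eq.trans ?_ Finset.sum_comm
  rw [Finset.mul_sum]
  refine Finset.sum_congr rfl fun x _ => ?_
  rw [Finset.mul_sum]
  refine Finset.sum_congr rfl fun y _ => ?_
  rw [← mul_assoc, mul_inv_cancel₀ h00, one_mul]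

end Pool.Agent.K7.H21.Sp
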