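import Pool.Agent.K7.H21.Sp.Spec
import Pool.Agent.R694.RC.Tame

set_option autoImplicit false
set_option linter.unusedSectionVars false

/-!
# Hypomorphic graphs and their adjacency matrices
-/

namespace Pool.Agent.K7.H21.Sp

open Finset Classical
open Pool.Agent.H234RC (Hypo NonIso Reconstructible)
open Pool.Agent.R694.RC (nbrs inv_start fin1 fin2)

variable {V : Type} [Fintype V]

/-- the adjacency matrix -/
noncomputable def am (G : SimpleGraph V) : Matrix V V ℝ :=
  Matrix.of (fun x y => if G.Adj x y then 1 else 0)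

lemma am_apply (G : SimpleGraph V) (x y : V) : am G x y = if G.Adj x y then 1 else 0 := rfl

lemma am_symm (G : SimpleGraph V) (x y : V) : am G x y = am G y x := by
  rw [am_apply, am_apply, G.adj_comm]

lemma am_diag (G : SimpleGraph V) (x : V) : am G x x = 0 := by simp [am_apply]

lemma am_adj {G : SimpleGraph V} {x y : V} (h : G.Adj x y) : am G x y = 1 := by simp [am_apply, h]

lemma am_nadj {G : SimpleGraph V} {x y : V} (h : ¬ G.Adj x y) : am G x y = 0 := by
  simp [am_apply, h]

lemma am_nonneg (G : SimpleGraph V) (x y : V) : 0 ≤ am G x y := by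
  rw [am_apply]; split_ifs <;> norm_num

/-- the degree -/
noncomputable def dg (G : SimpleGraph V) (x : V) : ℝ := ∑ y, am G x y

lemma dg_eq (G : SimpleGraph V) (x : V) : dg G x = ((univ.filter (fun y => G.Adj x y)).card : ℝ) := by
  unfold dg
  simp only [am_apply]
  rw [Finset.sum_ite]
  simp

variable {G H : SimpleGraph V} {π : V → Equiv.Perm V}

lemma hypoM (hH : Hypo G H π) : HypoM (am G) (am H) := by
  intro v
  refine ⟨π v, hH.fix v, fun x y hx hy => ?_⟩
  rw [am_apply, am_apply]
  simp only [hH.adj v x y hx hy]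

/-- the neighbour degree condition fails at every vertex -/
lemma nw (hV : 3 ≤ Fintype.card V) (hH : Hypo G H π) (hN : NonIso G H) (v : V) :
    ∃ x y, y ≠ v ∧ G.Adj v x ∧ ¬ G.Adj v y ∧ dg G x = dg G y + 1 := by
  by_contra hcon
  push Not at hcon
  refine fin1 hH (inv_start hV) v (mem_univ v) (fun i => ⟨Set.univ, Set.mem_univ _, ?_⟩) hN
  intro x _ y _ hyv _ _ hvx hvy he
  refine hcon x y hyv hvx hvy ?_
  have hnb : ∀ z, nbrs G univ (fun _ => 0) Set.univ z = (univ.filter (fun y => G.Adj z y)).card := by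
    intro z
    unfold nbrs
    congr 1
    ext y
    simp
  rw [hnb, hnb] at he
  rw [dg_eq, dg_eq, he]
  push_cast
  ring

lemma conn (hV : 3 ≤ Fintype.card V) (hH : Hypo G H π) (hN : NonIso G H) (W : Finset V)
    (h1 : W.Nonempty) (h2 : (univ \ W).Nonempty) : ∃ x ∈ W, ∃ y, y ∉ W ∧ G.Adj x y := by
  by_contra hcon
  push Not at hcon
  refine fin2 hH (inv_start hV) W (subset_univ _) h1 (by convert h2) ?_ hN
  intro x hx y hy x' hx' y' hy' _
  have hy1 : y ∉ W := by
    have := Finset.mem_sdiff.mp hy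
    exact this.2
  have hy2 : y' ∉ W := by
    have := Finset.mem_sdiff.mp hy'
    exact this.2
  exact iff_of_false (hcon x hx y hy1) (hcon x' hx' y' hy2)

lemma coconn (hV : 3 ≤ Fintype.card V) (hH : Hypo G H π) (hN : NonIso G H) (W : Finset V)
    (h1 : W.Nonempty) (h2 : (univ \ W).Nonempty) : ∃ x ∈ W, ∃ y, y ∉ W ∧ ¬ G.Adj x y := by
  by_contra hcon
  push Not at hcon
  refine fin2 hH (inv_start hV) W (subset_univ _) h1 (by convert h2) ?_ hN
  intro x hx y hy x' hx' y' hy' _
  have hy1 : y ∉ W := by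
    have := Finset.mem_sdiff.mp hy
    exact this.2
  have hy2 : y' ∉ W := by
    have := Finset.mem_sdiff.mp hy'
    exact this.2
  exact iff_of_true (hcon x hx y hy1) (hcon x' hx' y' hy2)

lemma hypo_symm (hH : Hypo G H π) : Hypo H G (fun v => (π v).symm) where
  fix v := by
    rw [Equiv.symm_apply_eq, hH.fix]
  adj v x y hx hy := by
    have h1 : (π v).symm x ≠ v := fun e => hx (by
      rw [Equiv.symm_apply_eq, hH.fix] at e; exact e)
    have h2 : (π v).symm y ≠ v := fun e => hy (by
      rw [Equiv.symm_apply_eq, hH.fix] at e; exact e)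
    have := hH.adj v _ _ h1 h2
    simp only [Equiv.apply_symm_apply] at this
    exact this.symm

lemma noniso_symm (hN : NonIso G H) : NonIso H G := by
  rintro ⟨σ, h⟩
  exact hN ⟨σ.symm, fun x y => by rw [← h]; simp⟩

lemma nonreg (hV : 3 ≤ Fintype.card V) (hH : Hypo G H π) (hN : NonIso G H) :
    ¬ ∀ v w, dg G v = dg G w := by
  intro h
  have : Nonempty V := Fintype.card_pos_iff.mp (by omega)
  obtain ⟨x, y, -, -, -, h1⟩ := nw hV hH hN (Classical.arbitrary V)
  rw [h x y] at h1
  linarith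

/-- everything about the spectrum -/
lemma spectral (hV : 3 ≤ Fintype.card V) (hH : Hypo G H π) (hN : NonIso G H) :
    (am H).charpoly = (am G).charpoly ∧ Nn (am H) = Nn (am G) ∧
      ∀ v, om (am H) v = om (am G) v := by
  rcases tutte (am_symm G) (am_symm H) (am_diag G) (am_diag H) (hypoM hH) hV with h | h
  · exact absurd h (nonreg hV (hypo_symm hH) (noniso_symm hN))
  · exact h

lemma dg_hyp (hV : 3 ≤ Fintype.card V) (hH : Hypo G H π) (hN : NonIso G H) (v : V) :
    dg H v = dg G v := by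
  have h := (spectral hV hH hN).2.2 v
  obtain ⟨k, hk⟩ : ∃ k, k + 2 = Fintype.card V := ⟨Fintype.card V - 2, by omega⟩
  have h2 := congrArg (fun p => p.coeff k) h
  have t1 : Matrix.trace (am H) = 0 := by simp [Matrix.trace, am_diag]
  have t2 : Matrix.trace (am G) = 0 := by simp [Matrix.trace, am_diag]
  rw [om_coeff_top' _ t1 v k hk, om_coeff_top' _ t2 v k hk] at h2
  exact h2

/-- the graph `H` relabelled by `π v` -/
def rel (H : SimpleGraph V) (σ : Equiv.Perm V) : SimpleGraph V := H.comap σ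

lemma rel_adj (H : SimpleGraph V) (σ : Equiv.Perm V) (x y : V) :
    (rel H σ).Adj x y ↔ H.Adj (σ x) (σ y) := Iff.rfl

lemma rel_off (hH : Hypo G H π) (v x y : V) (hx : x ≠ v) (hy : y ≠ v) :
    (rel H (π v)).Adj x y ↔ G.Adj x y := hH.adj v x y hx hy

lemma rel_ne (hN : NonIso G H) (σ : Equiv.Perm V) : rel H σ ≠ G := by
  intro h
  refine hN ⟨σ, fun x y => ?_⟩
  rw [← rel_adj, h]

lemma am_rel (H : SimpleGraph V) (σ : Equiv.Perm V) (x y : V) :
    am (rel H σ) x y = am H (σ x) (σ y) := by
  rw [am_apply, am_apply]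
  simp only [rel_adj]

lemma dg_rel (H : SimpleGraph V) (σ : Equiv.Perm V) (x : V) : dg (rel H σ) x = dg H (σ x) := by
  unfold dg
  rw [← Equiv.sum_comp σ (fun y => am H (σ x) y)]
  exact Finset.sum_congr rfl fun y _ => am_rel H σ x y

end Pool.Agent.K7.H21.Sp
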