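import Pool.Agent.K7.H21.Sp.Del

set_option autoImplicit false
set_option linter.unusedSectionVars false

/-!
# The walk identity for a deleted vertex
-/

namespace Pool.Agent.K7.H21.Sp

open Matrix Polynomial

variable {V : Type} [Fintype V] [DecidableEq V]

/-- row sums of the adjugate -/
noncomputable def om (A : Matrix V V ℝ) (x : V) : ℝ[X] := ∑ y, Cm A x y

/-- the sum of all entries of the adjugate -/
noncomputable def Nn (A : Matrix V V ℝ) : ℝ[X] := ∑ x, om A x

lemma Cm_mul (A : Matrix V V ℝ) (x y : V) :
    ∑ z, charmatrix A x z * Cm A z y = if x = y then A.charpoly else 0 := by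
  have h := congrFun (congrFun (mul_adjugate (charmatrix A)) x) y
  rw [Matrix.mul_apply] at h
  rw [Matrix.smul_apply, one_apply] at h
  unfold Cm
  rw [h]
  by_cases hxy : x = y
  · simp [hxy, Matrix.charpoly]
  · simp [hxy]

lemma Cm_mul' (A : Matrix V V ℝ) (x y : V) :
    ∑ z, Cm A x z * charmatrix A z y = if x = y then A.charpoly else 0 := by
  have h := congrFun (congrFun (adjugate_mul (charmatrix A)) x) y
  rw [Matrix.mul_apply] at h
  rw [Matrix.smul_apply, one_apply] at h
  unfold Cm
  rw [h]
  by_cases hxy : x = y
  · simp [hxy, Matrix.charpoly]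
  · simp [hxy]

lemma Cm_symm (A : Matrix V V ℝ) (hA : ∀ x y, A x y = A y x) (x y : V) : Cm A x y = Cm A y x := by
  have hT : (charmatrix A)ᵀ = charmatrix A := by
    ext1 x y
    rw [transpose_apply, charmatrix_apply, charmatrix_apply, hA]
    by_cases h : x = y
    · simp [h]
    · simp [diagonal_apply_ne _ h, diagonal_apply_ne _ (Ne.symm h)]
  have h := adjugate_transpose (charmatrix A)
  rw [hT] at h
  unfold Cm
  exact (congrFun (congrFun h y) x)

lemma charpoly_ne_zero (A : Matrix V V ℝ) : A.charpoly ≠ 0 := A.charpoly_monic.ne_zero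

/-- uniqueness of the solution of a linear system with the matrix `X - A` -/
lemma solve (A : Matrix V V ℝ) (g : V → ℝ[X]) (b : V → ℝ[X])
    (h : ∀ x, ∑ z, charmatrix A x z * g z = b x) (x : V) :
    A.charpoly * g x = ∑ y, Cm A x y * b y := by
  have h1 : ∑ y, Cm A x y * b y = ∑ y, Cm A x y * ∑ z, charmatrix A y z * g z :=
    Finset.sum_congr rfl fun y _ => by rw [h]
  rw [h1]
  simp only [Finset.mul_sum]
  rw [Finset.sum_comm]
  have h2 : ∀ z, ∑ y, Cm A x y * (charmatrix A y z * g z) =
      (if x = z then A.charpoly else 0) * g z := by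
    intro z
    rw [← Cm_mul' A x z, Finset.sum_mul]
    exact Finset.sum_congr rfl fun y _ => by ring
  rw [Finset.sum_congr rfl fun z _ => h2 z]
  simp

section
variable (A : Matrix V V ℝ) (hA : ∀ x y, A x y = A y x) (v : V) (hv : A v v = 0)
include hA hv

lemma pun_symm (x y : V) : pun A v x y = pun A v y x := by
  rw [pun_apply, pun_apply, hA x y]
  simp only [or_comm]

lemma pun_pun : pun (pun A v) v = pun A v := by
  ext x y
  rw [pun_apply]
  by_cases h : x = v ∨ y = v
  · rw [if_pos h, pun_apply, if_pos h]
  · rw [if_neg h]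

lemma D_vv : Cm (pun A v) v v = Cm A v v := by
  have h1 := charpoly_pun (pun A v) v
  rw [pun_pun A hA v hv, charpoly_pun] at h1
  exact (mul_left_cancel₀ X_ne_zero h1).symm

lemma D_vx (x : V) (hx : x ≠ v) : Cm (pun A v) v x = 0 := by
  have h := Cm_mul (pun A v) v x
  rw [if_neg (Ne.symm hx), Finset.sum_eq_single v] at h
  · rw [charmatrix_apply_eq, pun_apply] at h
    simp only [or_self, if_true, map_zero, sub_zero] at h
    exact (mul_eq_zero.mp h).resolve_left X_ne_zero
  · intro z _ hz
    rw [charmatrix_apply_ne _ _ _ (Ne.symm hz), pun_apply]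
    simp
  · intro h; exact absurd (Finset.mem_univ v) h

lemma D_xv (x : V) (hx : x ≠ v) : Cm (pun A v) x v = 0 := by
  rw [Cm_symm _ (pun_symm A hA v hv)]
  exact D_vx A hA v hv x hx

/-- `X - A` in terms of the punctured matrix -/
lemma cm_pun (x y : V) : charmatrix A x y = charmatrix (pun A v) x y -
    (if x = v then C (A v y) else 0) - (if y = v then C (A x v) else 0) := by
  rw [charmatrix_apply, charmatrix_apply, pun_apply]
  by_cases hx : x = v
  · subst hx
    by_cases hy : y = x
    · subst hy; simp [hv]
    · simp [hy]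
  · by_cases hy : y = v
    · subst hy; simp [hx]
    · simp [hx, hy]

/-- the vector `D a` -/
noncomputable def rr (A : Matrix V V ℝ) (v x : V) : ℝ[X] := ∑ y, Cm (pun A v) x y * C (A y v)

lemma rr_v : rr A v v = 0 := by
  unfold rr
  refine Finset.sum_eq_zero fun y _ => ?_
  by_cases hy : y = v
  · subst hy; rw [hv]; simp
  · rw [D_vx A hA v hv y hy, zero_mul]

lemma Mr (x : V) : ∑ z, charmatrix (pun A v) x z * rr A v z =
    (pun A v).charpoly * C (A x v) := by
  unfold rr
  simp only [Finset.mul_sum]
  rw [Finset.sum_comm]
  have h2 : ∀ y, ∑ z, charmatrix (pun A v) x z * (Cm (pun A v) z y * C (A y v)) =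
      (if x = y then (pun A v).charpoly else 0) * C (A y v) := by
    intro y
    rw [← Cm_mul (pun A v) x y, Finset.sum_mul]
    exact Finset.sum_congr rfl fun z _ => by ring
  rw [Finset.sum_congr rfl fun y _ => h2 y]
  simp

/-- the scalar `a D a` -/
noncomputable def aDa (A : Matrix V V ℝ) (v : V) : ℝ[X] := ∑ z, C (A v z) * rr A v z

lemma eq1 (x : V) : ∑ z, charmatrix A x z * ((if z = v then (pun A v).charpoly else 0) + rr A v z)
    = if x = v then X * (pun A v).charpoly - aDa A v else 0 := by
  have h1 : ∀ z, charmatrix A x z * ((if z = v then (pun A v).charpoly else 0) + rr A v z) =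
      (if z = v then charmatrix A x v * (pun A v).charpoly else 0) +
      (charmatrix (pun A v) x z * rr A v z - (if x = v then C (A v z) * rr A v z else 0) -
        (if z = v then C (A x v) * rr A v v else 0)) := by
    intro z
    rw [cm_pun A hA v hv x z]
    by_cases hz : z = v
    · subst hz
      rw [cm_pun A hA z hv x z]
      by_cases hx : x = z
      · simp [hx]; ring
      · simp [hx]; ring
    · by_cases hx : x = v
      · simp [hx, hz]; ring
      · simp [hx, hz]
  rw [Finset.sum_congr rfl fun z _ => h1 z]
  rw [Finset.sum_add_distrib, Finset.sum_sub_distrib, Finset.sum_sub_distrib, Mr A hA v hv,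
    Finset.sum_ite_eq' , Finset.sum_ite_eq', rr_v A hA v hv]
  simp only [Finset.mem_univ, if_true, mul_zero, sub_zero]
  by_cases hx : x = v
  · subst hx
    simp only [if_true]
    rw [charmatrix_apply_eq, hv]
    unfold aDa
    simp only [map_zero, sub_zero, zero_mul]
    ring
  · simp only [hx, if_false, Finset.sum_const_zero, sub_zero]
    rw [charmatrix_apply_ne _ _ _ hx]
    ring

lemma pp_ne : Cm A v v ≠ 0 := by
  intro h
  have := charpoly_pun A v
  rw [h, mul_zero] at this
  exact charpoly_ne_zero _ this

lemma beta_eq : X * (pun A v).charpoly - aDa A v = X * A.charpoly := by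
  have h := solve A _ _ (eq1 A hA v hv) v
  rw [rr_v A hA v hv] at h
  simp only [if_true, add_zero, mul_ite, mul_zero, Finset.sum_ite_eq', Finset.mem_univ] at h
  rw [charpoly_pun] at h ⊢
  have h2 : Cm A v v * (X * (X * Cm A v v) - aDa A v) = Cm A v v * (X * A.charpoly) := by
    rw [← h]; ring
  exact mul_left_cancel₀ (pp_ne A hA v hv) h2

lemma XC (x : V) : X * Cm A x v = (if x = v then (pun A v).charpoly else 0) + rr A v x := by
  have h := solve A _ _ (eq1 A hA v hv) x
  simp only [mul_ite, mul_zero, Finset.sum_ite_eq', Finset.mem_univ, if_true] at h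
  rw [beta_eq A hA v hv] at h
  refine mul_left_cancel₀ (charpoly_ne_zero A) ?_
  rw [h]; ring

lemma X_om : X * om A v = (pun A v).charpoly + ∑ x, rr A v x := by
  have h : om A v = ∑ x, Cm A x v := Finset.sum_congr rfl fun x _ => Cm_symm A hA v x
  rw [h, Finset.mul_sum, Finset.sum_congr rfl fun x _ => XC A hA v hv x, Finset.sum_add_distrib]
  simp

lemma M_om (B : Matrix V V ℝ) (x : V) : ∑ z, charmatrix B x z * om B z = B.charpoly := by
  unfold om
  simp only [Finset.mul_sum]
  rw [Finset.sum_comm, Finset.sum_congr rfl fun y _ => Cm_mul B x y]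
  simp

lemma om_pun_v : om (pun A v) v = Cm A v v := by
  unfold om
  rw [Finset.sum_eq_single v, D_vv A hA v hv]
  · intro y _ hy; exact D_vx A hA v hv y hy
  · intro h; exact absurd (Finset.mem_univ v) h

lemma sum_rr : ∑ x, rr A v x = ∑ z, C (A v z) * om (pun A v) z := by
  unfold rr om
  rw [Finset.sum_comm]
  refine Finset.sum_congr rfl fun y _ => ?_
  rw [Finset.mul_sum, hA y v]
  refine Finset.sum_congr rfl fun x _ => ?_
  rw [Cm_symm _ (pun_symm A hA v hv)]
  ring

lemma eq4 (x : V) : (pun A v).charpoly * om A x =
    A.charpoly * (om (pun A v) x - (if x = v then Cm A v v else 0)) + om A v * (X * Cm A x v) := by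
  -- both sides solve the same system
  have key : ∀ x, ∑ z, charmatrix A x z * (A.charpoly * (om (pun A v) z -
      (if z = v then Cm A v v else 0)) + om A v * (X * Cm A z v)) =
      (pun A v).charpoly * A.charpoly := by
    intro x
    have h1 : ∀ z, charmatrix A x z * (A.charpoly * (om (pun A v) z -
      (if z = v then Cm A v v else 0)) + om A v * (X * Cm A z v)) =
      A.charpoly * (charmatrix (pun A v) x z * om (pun A v) z) -
      A.charpoly * (if x = v then C (A v z) * om (pun A v) z else 0) -
      A.charpoly * (if z = v then (C (A x v) * om (pun A v) v + charmatrix A x v * Cm A v v) else 0)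
      + om A v * X * (charmatrix A x z * Cm A z v) := by
      intro z
      by_cases hz : z = v
      · subst hz
        by_cases hx : x = z
        · simp only [hx, if_true]
          rw [cm_pun A hA z hv z z]
          simp only [if_true]
          ring
        · simp only [hx, if_true, if_false]
          rw [cm_pun A hA z hv x z]
          simp only [hx, if_true, if_false]
          ring
      · by_cases hx : x = v
        · simp only [hx, hz, if_true, if_false]
          rw [cm_pun A hA v hv v z]
          simp only [hz, if_true, if_false]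
          ring
        · simp only [hx, hz, if_false]
          rw [cm_pun A hA v hv x z]
          simp only [hx, hz, if_false]
          ring
    rw [Finset.sum_congr rfl fun z _ => h1 z, Finset.sum_add_distrib, Finset.sum_sub_distrib,
      Finset.sum_sub_distrib, ← Finset.mul_sum, ← Finset.mul_sum, ← Finset.mul_sum,
      ← Finset.mul_sum, M_om A hA v hv (pun A v), Cm_mul, Finset.sum_ite_eq', om_pun_v A hA v hv]
    simp only [Finset.mem_univ, if_true]
    by_cases hx : x = v
    · subst hx
      simp only [if_true]
      rw [charmatrix_apply_eq, hv, ← sum_rr A hA x hv]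
      have h5 := X_om A hA x hv
      have h6 : ∑ z, rr A x z = X * om A x - (pun A x).charpoly := by rw [h5]; ring
      rw [h6, charpoly_pun]
      simp only [map_zero, sub_zero]
      ring
    · simp only [hx, if_false, Finset.sum_const_zero, mul_zero, sub_zero, add_zero]
      rw [charmatrix_apply_ne _ _ _ hx]
      ring
  have h2 := solve A _ _ key x
  have h3 : ∑ y, Cm A x y * ((pun A v).charpoly * A.charpoly) =
      (pun A v).charpoly * A.charpoly * om A x := by
    unfold om
    rw [Finset.mul_sum]
    exact Finset.sum_congr rfl fun y _ => by ring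
  rw [h3] at h2
  refine mul_left_cancel₀ (charpoly_ne_zero A) ?_
  rw [h2]
  ring

/-- **The identity.** -/
theorem main_identity : X * Cm A v v * Nn A =
    A.charpoly * (Nn (pun A v) - Cm A v v) + X * (om A v) ^ 2 := by
  have h : ∑ x, (pun A v).charpoly * om A x = ∑ x, (A.charpoly * (om (pun A v) x -
      (if x = v then Cm A v v else 0)) + om A v * (X * Cm A x v)) :=
    Finset.sum_congr rfl fun x _ => eq4 A hA v hv x
  rw [Finset.sum_add_distrib, ← Finset.mul_sum, ← Finset.mul_sum, Finset.sum_sub_distrib,
    Finset.sum_ite_eq'] at h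
  simp only [Finset.mem_univ, if_true] at h
  have h2 : ∑ x, om A v * (X * Cm A x v) = X * (om A v) ^ 2 := by
    have h3 : om A v = ∑ x, Cm A x v := Finset.sum_congr rfl fun x _ => Cm_symm A hA v x
    have h4 : ∑ x, om A v * (X * Cm A x v) = om A v * X * ∑ x, Cm A x v := by
      rw [Finset.mul_sum]
      exact Finset.sum_congr rfl fun x _ => by ring
    rw [h4, ← h3]
    ring
  rw [h2, charpoly_pun] at h
  exact h

end

end Pool.Agent.K7.H21.Sp
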