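import Pool.Agent.K7.H21.Sp.Three

set_option autoImplicit false
set_option linter.unusedSectionVars false

/-!
# Graphs with a quadratic identity
-/

namespace Pool.Agent.K7.H21.Sp

open Finset Classical
open scoped Matrix
open Pool.Agent.H234RC (Hypo NonIso Reconstructible)

variable {V : Type} [Fintype V]

/-- the number of walks of length `k` starting in `v` -/
noncomputable def wk (A : Matrix V V ℝ) (k : ℕ) (v : V) : ℝ := ∑ y, (A ^ k) v y

/-- row sum as a linear map -/
noncomputable def rowL (v : V) : Matrix V V ℝ →ₗ[ℝ] ℝ where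
  toFun M := ∑ y, M v y
  map_add' M N := by simp [Finset.sum_add_distrib]
  map_smul' c M := by simp [Finset.mul_sum]

lemma wk_eq {A B : Matrix V V ℝ} (h : B.charpoly = A.charpoly) (v : V) (h' : om B v = om A v)
    (k : ℕ) : wk B k v = wk A k v := by
  refine lin_pow (rowL v) h (fun k => ?_) k
  show ∑ y, _ = ∑ y, _
  rw [← om_coeff, ← om_coeff, h']

lemma pow_symm {A : Matrix V V ℝ} (hA : ∀ x y, A x y = A y x) (k : ℕ) (x y : V) :
    (A ^ k) x y = (A ^ k) y x := by
  have h1 : Aᵀ = A := by ext x y; exact hA y x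
  have h2 : (A ^ k)ᵀ = A ^ k := by rw [Matrix.transpose_pow, h1]
  exact (congrFun (congrFun h2 y) x)

lemma hs {A : Matrix V V ℝ} (hA : ∀ x y, A x y = A y x) (i k : ℕ) :
    ∑ u, ∑ w, (A ^ i) u w * (A ^ k) u w = Matrix.trace (A ^ (i + k)) := by
  rw [pow_add, Matrix.trace]
  refine Finset.sum_congr rfl fun u _ => ?_
  rw [Matrix.diag_apply, Matrix.mul_apply]
  exact Finset.sum_congr rfl fun w _ => by rw [pow_symm hA k u w]

lemma wk_succ (A : Matrix V V ℝ) (k : ℕ) (v : V) :
    ∑ w, (A ^ k) v w * wk A 1 w = wk A (k + 1) v := by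
  have h : ∀ w, wk A 1 w = ∑ y, A w y := fun w => by unfold wk; rw [pow_one]
  rw [Finset.sum_congr rfl fun w _ => by rw [h w]]
  unfold wk
  rw [pow_succ]
  simp only [Matrix.mul_apply, Finset.mul_sum]
  exact Finset.sum_comm

/-- the quadratic expression -/
noncomputable def FF (A : Matrix V V ℝ) (p q x y z : ℝ) (u w : V) : ℝ :=
  (A ^ 2) u w - p * (A ^ 1) u w - q * (A ^ 0) u w - x - y * (wk A 1 u + wk A 1 w) -
    z * (wk A 1 u * wk A 1 w)

lemma wk_sum_succ {A : Matrix V V ℝ} (hA : ∀ x y, A x y = A y x) (k : ℕ) :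
    ∑ u, wk A (k + 1) u = ∑ u, wk A 1 u * wk A k u := by
  have : ∀ u, wk A (k + 1) u = ∑ w, (A ^ k) u w * wk A 1 w := fun u => (wk_succ A k u).symm
  rw [Finset.sum_congr rfl fun u _ => this u, Finset.sum_comm]
  refine Finset.sum_congr rfl fun w _ => ?_
  rw [← Finset.sum_mul, mul_comm]
  congr 1
  unfold wk
  exact Finset.sum_congr rfl fun u _ => pow_symm hA k u w

/-- pairing with a power, pointwise -/
lemma FF_pair_pt (A : Matrix V V ℝ) (p q x y z : ℝ) (k : ℕ) (u : V) :
    ∑ w, FF A p q x y z u w * (A ^ k) u w =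
      ∑ w, (A ^ 2) u w * (A ^ k) u w - p * ∑ w, (A ^ 1) u w * (A ^ k) u w -
      q * ∑ w, (A ^ 0) u w * (A ^ k) u w - x * wk A k u - y * (wk A 1 u * wk A k u) -
      y * wk A (k + 1) u - z * (wk A 1 u * wk A (k + 1) u) := by
  rw [← wk_succ A k u]
  have h : wk A k u = ∑ w, (A ^ k) u w := rfl
  rw [h]
  unfold FF
  generalize wk A 1 = d
  simp only [Finset.mul_sum, ← Finset.sum_sub_distrib]
  refine Finset.sum_congr rfl fun w _ => ?_
  ring

/-- pairing with a power -/
lemma FF_pair {A : Matrix V V ℝ} (hA : ∀ x y, A x y = A y x) (p q x y z : ℝ) (k : ℕ) :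
    ∑ u, ∑ w, FF A p q x y z u w * (A ^ k) u w =
      Matrix.trace (A ^ (2 + k)) - p * Matrix.trace (A ^ (1 + k)) - q * Matrix.trace (A ^ (0 + k)) -
      x * ∑ u, wk A k u - y * ∑ u, wk A 1 u * wk A k u - y * ∑ u, wk A (k + 1) u -
      z * ∑ u, wk A 1 u * wk A (k + 1) u := by
  rw [← hs hA, ← hs hA, ← hs hA]
  rw [Finset.sum_congr rfl fun u _ => FF_pair_pt A p q x y z k u]
  simp only [Finset.sum_sub_distrib, ← Finset.mul_sum]

/-- row sums of the quadratic expression -/
lemma FF_row (A : Matrix V V ℝ) (p q x y z : ℝ) (u : V) :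
    ∑ w, FF A p q x y z u w = wk A 2 u - p * wk A 1 u - q * wk A 0 u - x * Fintype.card V
      - y * (wk A 1 u * Fintype.card V) - y * ∑ w, wk A 1 w - z * (wk A 1 u * ∑ w, wk A 1 w) := by
  have h2 : wk A 2 u = ∑ w, (A ^ 2) u w := rfl
  have h0 : wk A 0 u = ∑ w, (A ^ 0) u w := rfl
  have h1 : p * wk A 1 u = p * ∑ w, (A ^ 1) u w := rfl
  rw [h2, h0, h1]
  have hc : (Fintype.card V : ℝ) = ∑ w : V, (1 : ℝ) := by simp
  rw [hc]
  unfold FF
  generalize wk A 1 = d
  simp only [Finset.mul_sum, ← Finset.sum_sub_distrib]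
  refine Finset.sum_congr rfl fun w _ => ?_
  ring

/-- weighted row sums of the quadratic expression -/
lemma FF_row1 (A : Matrix V V ℝ) (p q x y z : ℝ) (u : V) :
    ∑ w, FF A p q x y z u w * wk A 1 w = wk A 3 u - p * wk A 2 u - q * wk A 1 u
      - x * ∑ w, wk A 1 w
      - y * (wk A 1 u * ∑ w, wk A 1 w) - y * ∑ w, wk A 1 w * wk A 1 w
      - z * (wk A 1 u * ∑ w, wk A 1 w * wk A 1 w) := by
  have h3 := wk_succ A 2 u
  have h2 := wk_succ A 1 u
  have h1 := wk_succ A 0 u
  norm_num only at h3 h2 h1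
  have h1' : q * wk A 1 u = q * ∑ w, (A ^ 0) u w * wk A 1 w := by rw [h1]
  rw [← h3, ← h2, h1']
  unfold FF
  generalize wk A 1 = d
  simp only [Finset.mul_sum, ← Finset.sum_sub_distrib]
  refine Finset.sum_congr rfl fun w _ => ?_
  ring

/-- the quadratic expression vanishes iff this sum of squares does -/
lemma FF_sq {A : Matrix V V ℝ} (p q x y z : ℝ) :
    ∑ u, ∑ w, FF A p q x y z u w * FF A p q x y z u w =
      ∑ u, ∑ w, FF A p q x y z u w * (A ^ 2) u w - p * ∑ u, ∑ w, FF A p q x y z u w * (A ^ 1) u w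
      - q * ∑ u, ∑ w, FF A p q x y z u w * (A ^ 0) u w - x * ∑ u, ∑ w, FF A p q x y z u w
      - y * ∑ u, wk A 1 u * ∑ w, FF A p q x y z u w
      - y * ∑ u, ∑ w, FF A p q x y z u w * wk A 1 w
      - z * ∑ u, wk A 1 u * ∑ w, FF A p q x y z u w * wk A 1 w := by
  simp only [Finset.mul_sum, ← Finset.sum_sub_distrib]
  refine Finset.sum_congr rfl fun u _ => Finset.sum_congr rfl fun w _ => ?_
  generalize hF : FF A p q x y z u w = f
  have : FF A p q x y z u w = (A ^ 2) u w - p * (A ^ 1) u w - q * (A ^ 0) u w - x -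
    y * (wk A 1 u + wk A 1 w) - z * (wk A 1 u * wk A 1 w) := rfl
  rw [hF] at this
  linear_combination f * this

/-- **recognition**: the quadratic identity is determined by the spectrum and the walk numbers -/
lemma recog {A B : Matrix V V ℝ} (hA : ∀ x y, A x y = A y x) (hB : ∀ x y, B x y = B y x)
    (h : B.charpoly = A.charpoly) (h' : ∀ v, om B v = om A v) (p q x y z : ℝ)
    (hF : ∀ u w, FF A p q x y z u w = 0) (u w : V) : FF B p q x y z u w = 0 := by
  have e : ∀ k u, wk B k u = wk A k u := fun k u => wk_eq h u (h' u) k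
  have hp : ∀ k, ∑ u, ∑ w, FF B p q x y z u w * (B ^ k) u w = 0 := by
    intro k
    have h1 : ∑ u, ∑ w, FF A p q x y z u w * (A ^ k) u w = 0 := by simp [hF]
    rw [← h1, FF_pair hA, FF_pair hB]
    simp only [e, trace_pow_eq h]
  have hr : ∀ u, ∑ w, FF B p q x y z u w = 0 := by
    intro u
    have h1 : ∑ w, FF A p q x y z u w = 0 := by simp [hF]
    rw [← h1, FF_row, FF_row]
    simp only [e]
  have hr1 : ∀ u, ∑ w, FF B p q x y z u w * wk B 1 w = 0 := by
    intro u
    have h1 : ∑ w, FF A p q x y z u w * wk A 1 w = 0 := by simp [hF]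
    rw [← h1, FF_row1, FF_row1]
    simp only [e]
  have hs := FF_sq (A := B) p q x y z
  simp only [hp, hr, hr1, Finset.sum_const_zero, mul_zero, sub_zero] at hs
  have h1 := (Finset.sum_eq_zero_iff_of_nonneg (fun u _ =>
    Finset.sum_nonneg fun w _ => mul_self_nonneg (FF B p q x y z u w))).mp hs u (mem_univ _)
  have h2 := (Finset.sum_eq_zero_iff_of_nonneg (fun w _ =>
    mul_self_nonneg (FF B p q x y z u w))).mp h1 w (mem_univ _)
  exact mul_self_eq_zero.mp h2

end Pool.Agent.K7.H21.Sp
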