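import Pool.Agent.K7.H21.Sp.Tutte

set_option autoImplicit false
set_option linter.unusedSectionVars false

/-!
# Polynomials which annihilate a symmetric matrix, traces of powers
-/

namespace Pool.Agent.K7.H21.Sp

open Matrix Polynomial

variable {V : Type} [Fintype V] [DecidableEq V]

lemma herm_of_symm {A : Matrix V V ℝ} (hA : ∀ x y, A x y = A y x) : A.IsHermitian := by
  ext x y
  rw [conjTranspose_apply, star_trivial, hA]

lemma aeval_mulVec_eig (A : Matrix V V ℝ) (u : V → ℝ) (l : ℝ) (h : A *ᵥ u = l • u) (p : ℝ[X]) :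
    (aeval A p) *ᵥ u = (p.eval l) • u := by
  induction p using Polynomial.induction_on' with
  | add p q hp hq => rw [map_add, add_mulVec, hp, hq, eval_add, add_smul]
  | monomial n a =>
    rw [aeval_monomial, eval_monomial]
    have h2 : ∀ n : ℕ, (A ^ n) *ᵥ u = l ^ n • u := by
      intro n
      induction n with
      | zero => simp
      | succ n ih => rw [pow_succ, ← mulVec_mulVec, h, mulVec_smul, ih, smul_smul, pow_succ, mul_comm]
    rw [← mulVec_mulVec, h2, mulVec_smul, Algebra.algebraMap_eq_smul_one, smul_mulVec, one_mulVec,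
      smul_smul, mul_comm]

/-- a polynomial which vanishes at all eigenvalues annihilates the symmetric matrix -/
lemma aeval_eq_zero {A : Matrix V V ℝ} (hA : ∀ x y, A x y = A y x) (p : ℝ[X])
    (hp : ∀ l ∈ spectrum ℝ A, p.eval l = 0) : aeval A p = 0 := by
  have hH := herm_of_symm hA
  have h1 : ∀ j, (aeval A p) *ᵥ (hH.eigenvectorBasis j).ofLp = 0 := by
    intro j
    rw [aeval_mulVec_eig A _ (hH.eigenvalues j) (hH.mulVec_eigenvectorBasis j),
      hp _ (hH.eigenvalues_mem_spectrum_real j), zero_smul]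
  have h2 : ∀ w : EuclideanSpace ℝ V, (aeval A p) *ᵥ w.ofLp = 0 := by
    intro w
    have h3 : (Matrix.toEuclideanLin (aeval A p)) = 0 := by
      refine hH.eigenvectorBasis.toBasis.ext fun j => ?_
      rw [OrthonormalBasis.coe_toBasis]
      rw [LinearMap.zero_apply]
      ext x
      exact congrFun (h1 j) x
    have h4 := congrArg (fun f => (f w).ofLp) h3
    exact h4
  ext x y
  have h5 := congrFun (h2 (EuclideanSpace.single y (1 : ℝ))) x
  have h6 : ((aeval A p) *ᵥ (EuclideanSpace.single y (1 : ℝ)).ofLp) x = aeval A p x y := by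
    simp [mulVec, dotProduct]
  rw [← h6, h5]
  rfl

/-- linear functionals of powers -/
lemma lin_pow {A B : Matrix V V ℝ} (L : Matrix V V ℝ →ₗ[ℝ] ℝ)
    (h : B.charpoly = A.charpoly) (hL : ∀ k, L (cf B k) = L (cf A k)) (j : ℕ) :
    L (B ^ j) = L (A ^ j) := by
  induction j using Nat.strong_induction_on with
  | _ j ih =>
    by_cases hj : j < Fintype.card V
    · obtain ⟨k, hk⟩ : ∃ k, k + j + 1 = Fintype.card V := ⟨Fintype.card V - 1 - j, by omega⟩
      have h1 := hL k
      rw [cf_horner A j k hk, cf_horner B j k hk, map_add, map_add, map_sum, map_sum] at h1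
      have h2 : ∑ i ∈ Finset.range j, L (B.charpoly.coeff (k + 1 + i) • B ^ i) =
          ∑ i ∈ Finset.range j, L (A.charpoly.coeff (k + 1 + i) • A ^ i) := by
        refine Finset.sum_congr rfl fun i hi => ?_
        rw [map_smul, map_smul, ih i (Finset.mem_range.mp hi), h]
      rw [h2] at h1
      exact add_right_cancel h1
    · obtain ⟨d, hd⟩ : ∃ d, j = d + Fintype.card V := ⟨j - Fintype.card V, by omega⟩
      have key : ∀ M : Matrix V V ℝ, M ^ j = - ∑ i ∈ Finset.range (Fintype.card V),
          M.charpoly.coeff i • M ^ (d + i) := by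
        intro M
        have h1 := aeval_self_charpoly M
        rw [aeval_eq_sum_range, charpoly_natDegree_eq_dim, Finset.sum_range_succ, charpoly_top,
          one_smul] at h1
        have h2 : M ^ Fintype.card V = - ∑ i ∈ Finset.range (Fintype.card V),
          M.charpoly.coeff i • M ^ i := by
          rw [eq_neg_iff_add_eq_zero, add_comm]; exact h1
        rw [hd, pow_add, h2, Matrix.mul_neg, Finset.mul_sum]
        congr 1
        refine Finset.sum_congr rfl fun i _ => ?_
        rw [Matrix.mul_smul, pow_add]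
      rw [key A, key B, map_neg, map_neg, map_sum, map_sum]
      congr 1
      refine Finset.sum_congr rfl fun i hi => ?_
      have := Finset.mem_range.mp hi
      rw [map_smul, map_smul, ih (d + i) (by omega), h]

/-- traces of powers are determined by the characteristic polynomial -/
lemma trace_pow_eq {A B : Matrix V V ℝ} (h : B.charpoly = A.charpoly) (k : ℕ) :
    trace (B ^ k) = trace (A ^ k) := by
  refine lin_pow (traceLinearMap V ℝ ℝ) h (fun k => ?_) k
  simp only [traceLinearMap_apply]
  rw [trace_cf, trace_cf, h]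

/-- the sum of all entries -/
def tot (M : Matrix V V ℝ) : ℝ := ∑ x, ∑ y, M x y

/-- the sum of all entries, as a linear map -/
def totL : Matrix V V ℝ →ₗ[ℝ] ℝ where
  toFun := tot
  map_add' M N := by simp [tot, Finset.sum_add_distrib]
  map_smul' c M := by simp [tot, Finset.mul_sum]

lemma tot_pow_eq {A B : Matrix V V ℝ} (h : B.charpoly = A.charpoly) (h' : Nn B = Nn A) (k : ℕ) :
    tot (B ^ k) = tot (A ^ k) := by
  refine lin_pow totL h (fun k => ?_) k
  show tot _ = tot _
  have : ∀ M : Matrix V V ℝ, tot (cf M k) = (Nn M).coeff k := by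
    intro M
    unfold tot Nn om
    rw [finsetSum_coeff]
    refine Finset.sum_congr rfl fun x _ => ?_
    rw [finsetSum_coeff]
    exact Finset.sum_congr rfl fun y _ => cf_apply M k x y
  rw [this, this, h']

/-- three eigenvalues: a cubic polynomial -/
lemma cubic_of_spectrum {A B : Matrix V V ℝ} (hA : ∀ x y, A x y = A y x)
    (hB : ∀ x y, B x y = B y x) (h : B.charpoly = A.charpoly)
    (h3 : (spectrum ℝ A).ncard ≤ 3) : ∃ a b c : ℝ,
    A ^ 3 = a • A ^ 2 + b • A + c • (1 : Matrix V V ℝ) ∧
    B ^ 3 = a • B ^ 2 + b • B + c • (1 : Matrix V V ℝ) := by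
  have hs : spectrum ℝ B = spectrum ℝ A := by
    ext l
    rw [mem_spectrum_iff_isRoot_charpoly, mem_spectrum_iff_isRoot_charpoly, h]
  have hfin : (spectrum ℝ A).Finite := Matrix.finite_real_spectrum
  obtain ⟨s, t, u, hstu⟩ : ∃ s t u : ℝ, ∀ l ∈ spectrum ℝ A, l = s ∨ l = t ∨ l = u := by
    have h4 : (spectrum ℝ A).ncard = 0 ∨ (spectrum ℝ A).ncard = 1 ∨ (spectrum ℝ A).ncard = 2 ∨
      (spectrum ℝ A).ncard = 3 := by omega
    rcases h4 with h4 | h4 | h4 | h4
    · rw [Set.ncard_eq_zero hfin] at h4
      exact ⟨0, 0, 0, fun l hl => by rw [h4] at hl; exact hl.elim⟩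
    · obtain ⟨a, ha⟩ := Set.ncard_eq_one.mp h4
      exact ⟨a, a, a, fun l hl => by rw [ha] at hl; simp at hl; simp [hl]⟩
    · obtain ⟨a, b, -, ha⟩ := Set.ncard_eq_two.mp h4
      exact ⟨a, b, b, fun l hl => by rw [ha] at hl; simp at hl; tauto⟩
    · obtain ⟨a, b, c, -, -, -, ha⟩ := Set.ncard_eq_three.mp h4
      exact ⟨a, b, c, fun l hl => by rw [ha] at hl; simp at hl; tauto⟩
  have key : ∀ M : Matrix V V ℝ, (∀ x y, M x y = M y x) → spectrum ℝ M = spectrum ℝ A →
      M ^ 3 = (s + t + u) • M ^ 2 + (-(s * t + s * u + t * u)) • M +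
        (s * t * u) • (1 : Matrix V V ℝ) := by
    intro M hM hsM
    have h5 := aeval_eq_zero hM (X ^ 3 - C (s + t + u) * X ^ 2 + C (s * t + s * u + t * u) * X
      - C (s * t * u)) (fun l hl => by
        rw [hsM] at hl
        simp only [eval_sub, eval_add, eval_mul, eval_pow, eval_X, eval_C]
        rcases hstu l hl with rfl | rfl | rfl <;> ring)
    simp only [map_sub, map_add, map_mul, map_pow, aeval_X, aeval_C,
      Algebra.algebraMap_eq_smul_one, smul_mul_assoc, one_mul] at h5
    have h6 : M ^ 3 = (s + t + u) • M ^ 2 - (s * t + s * u + t * u) • M +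
        (s * t * u) • (1 : Matrix V V ℝ) := by
      have : ∀ P Q R S : Matrix V V ℝ, P - Q + R - S = 0 → P = Q - R + S := by
        intro P Q R S hh
        rw [← sub_eq_zero, ← hh]; abel
      refine this _ _ _ _ ?_
      rw [← h5]
      simp only [add_smul, mul_smul, add_mul, smul_mul_assoc, one_mul]
    rw [h6, neg_smul, sub_eq_add_neg]
  exact ⟨_, _, _, key A hA rfl, key B hB hs⟩

end Pool.Agent.K7.H21.Sp
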