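import Pool.Agent.K7.H21.Sp.Cover

set_option autoImplicit false
set_option linter.unusedSectionVars false

/-!
# Eigenvectors orthogonal to the walk vectors
-/

namespace Pool.Agent.K7.H21.Sp

open Finset Classical Polynomial
open scoped Matrix
open Pool.Agent.H234RC (Hypo NonIso Reconstructible)

variable {V : Type} [Fintype V]

/-- orthogonal to all walk vectors -/
def Ort (A : Matrix V V ℝ) (f : V → ℝ) : Prop := ∀ k, ∑ x, wk A k x * f x = 0

lemma wk_succ' (A : Matrix V V ℝ) (k : ℕ) (v : V) :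
    wk A (k + 1) v = ∑ w, A v w * wk A k w := by
  unfold wk
  rw [pow_succ']
  simp only [Matrix.mul_apply, Finset.mul_sum]
  exact Finset.sum_comm

lemma wk_mulVec {A : Matrix V V ℝ} (hA : ∀ x y, A x y = A y x) (k : ℕ) (f : V → ℝ) :
    ∑ x, wk A k x * (A *ᵥ f) x = ∑ x, wk A (k + 1) x * f x := by
  have h1 : ∀ x, wk A k x * (A *ᵥ f) x = ∑ y, wk A k x * (A x y * f y) := fun x => by
    rw [Matrix.mulVec, dotProduct, Finset.mul_sum]
  rw [Finset.sum_congr rfl fun x _ => h1 x, Finset.sum_comm]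
  refine Finset.sum_congr rfl fun y _ => ?_
  rw [wk_succ', Finset.sum_mul]
  exact Finset.sum_congr rfl fun x _ => by rw [hA x y]; ring

lemma Ort.mulVec {A : Matrix V V ℝ} (hA : ∀ x y, A x y = A y x) {f : V → ℝ} (h : Ort A f) :
    Ort A (A *ᵥ f) := fun k => by rw [wk_mulVec hA, h]

lemma Ort.add {A : Matrix V V ℝ} {f g : V → ℝ} (h : Ort A f) (h' : Ort A g) : Ort A (f + g) :=
  fun k => by simp only [Pi.add_apply, mul_add, Finset.sum_add_distrib, h k, h' k, add_zero]

lemma Ort.smul {A : Matrix V V ℝ} {f : V → ℝ} (h : Ort A f) (c : ℝ) : Ort A (c • f) :=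
  fun k => by
    have : ∀ x, wk A k x * (c • f) x = c * (wk A k x * f x) := fun x => by
      rw [Pi.smul_apply, smul_eq_mul]; ring
    rw [Finset.sum_congr rfl fun x _ => this x, ← Finset.mul_sum, h k, mul_zero]

lemma Ort.poly {A : Matrix V V ℝ} (hA : ∀ x y, A x y = A y x) {f : V → ℝ} (h : Ort A f)
    (p : ℝ[X]) : Ort A ((aeval A p) *ᵥ f) := by
  induction p using Polynomial.induction_on' with
  | add p q hp hq => rw [map_add, Matrix.add_mulVec]; exact hp.add hq
  | monomial n a =>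
    rw [aeval_monomial, ← Matrix.mulVec_mulVec, Algebra.algebraMap_eq_smul_one,
      Matrix.smul_mulVec, Matrix.one_mulVec]
    refine Ort.smul ?_ a
    induction n with
    | zero => rw [pow_zero, Matrix.one_mulVec]; exact h
    | succ n ih => rw [pow_succ', ← Matrix.mulVec_mulVec]; exact ih.mulVec hA

/-- orthonormal eigenvectors, in coordinates -/
lemma eig {A : Matrix V V ℝ} (hA : ∀ x y, A x y = A y x) :
    ∃ (b : V → V → ℝ) (l : V → ℝ), (∀ i, A *ᵥ (b i) = l i • b i) ∧
      (∀ i j, ∑ x, b i x * b j x = if i = j then 1 else 0) ∧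
      (∀ f : V → ℝ, ∀ x, f x = ∑ i, (∑ y, b i y * f y) * b i x) ∧
      (∀ f : V → ℝ, ∑ x, f x ^ 2 = ∑ i, (∑ y, b i y * f y) ^ 2) := by
  have hH := herm_of_symm hA
  have hin : ∀ (i : V) (f : EuclideanSpace ℝ V), inner ℝ (hH.eigenvectorBasis i) f =
      ∑ y, (hH.eigenvectorBasis i).ofLp y * f.ofLp y := by
    intro i f
    rw [PiLp.inner_apply]
    exact Finset.sum_congr rfl fun y _ => by
      simp [mul_comm]
  refine ⟨fun i => (hH.eigenvectorBasis i).ofLp, hH.eigenvalues,
    fun i => hH.mulVec_eigenvectorBasis i, fun i j => ?_, fun f x => ?_, fun f => ?_⟩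
  · rw [← hin]
    exact orthonormal_iff_ite.mp hH.eigenvectorBasis.orthonormal i j
  · have h1 := hH.eigenvectorBasis.sum_repr' (WithLp.toLp 2 f)
    have h2 := congrArg (fun g => g.ofLp x) h1
    simp only at h2
    rw [← h2]
    rw [WithLp.ofLp_sum, Finset.sum_apply]
    exact Finset.sum_congr rfl fun i _ => by
      rw [hin]; rfl
  · have h1 := hH.eigenvectorBasis.sum_sq_norm_inner_right (WithLp.toLp 2 f)
    rw [EuclideanSpace.norm_sq_eq] at h1
    have h2 : ∑ x, f x ^ 2 = ∑ x, ‖(WithLp.toLp 2 f : EuclideanSpace ℝ V).ofLp x‖ ^ 2 :=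
      Finset.sum_congr rfl fun x _ => by simp
    rw [h2, ← h1]
    exact Finset.sum_congr rfl fun i _ => by rw [hin]; simp

/-- polynomials in the eigenbasis -/
lemma poly_eig {A : Matrix V V ℝ} {b : V → V → ℝ} {l : V → ℝ} (h1 : ∀ i, A *ᵥ (b i) = l i • b i)
    (h3 : ∀ f : V → ℝ, ∀ x, f x = ∑ i, (∑ y, b i y * f y) * b i x) (p : ℝ[X]) (f : V → ℝ) :
    (aeval A p) *ᵥ f = ∑ i, ((∑ y, b i y * f y) * p.eval (l i)) • b i := by
  have hf : f = ∑ i, (∑ y, b i y * f y) • b i := by
    funext x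
    rw [Finset.sum_apply]
    exact h3 f x
  conv_lhs => rw [hf]
  rw [Matrix.mulVec_sum]
  refine Finset.sum_congr rfl fun i _ => ?_
  rw [Matrix.mulVec_smul, aeval_mulVec_eig A _ _ (h1 i), smul_smul]

lemma coef_sum {b : V → V → ℝ} (h2 : ∀ i j, ∑ x, b i x * b j x = if i = j then 1 else 0)
    (c : V → ℝ) (i : V) : ∑ y, b i y * (∑ j, c j • b j) y = c i := by
  have h : ∀ y, b i y * (∑ j, c j • b j) y = ∑ j, c j * (b i y * b j y) := by
    intro y
    rw [Finset.sum_apply, Finset.mul_sum]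
    exact Finset.sum_congr rfl fun j _ => by rw [Pi.smul_apply, smul_eq_mul]; ring
  rw [Finset.sum_congr rfl fun y _ => h y, Finset.sum_comm]
  have h' : ∀ j, ∑ y, c j * (b i y * b j y) = c j * (if i = j then 1 else 0) := by
    intro j
    rw [← Finset.mul_sum, h2]
  rw [Finset.sum_congr rfl fun j _ => h' j]
  simp

/-- the eigenvalues which occur in a vector orthogonal to the walk vectors -/
lemma comp_mem {A : Matrix V V ℝ} (hA : ∀ x y, A x y = A y x) {b : V → V → ℝ} {l : V → ℝ}
    (h1 : ∀ i, A *ᵥ (b i) = l i • b i)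
    (h2 : ∀ i j, ∑ x, b i x * b j x = if i = j then 1 else 0)
    (h3 : ∀ f : V → ℝ, ∀ x, f x = ∑ i, (∑ y, b i y * f y) * b i x)
    (S : Set ℝ) (hS : ∀ θ g, g ≠ 0 → A *ᵥ g = θ • g → Ort A g → θ ∈ S)
    {f : V → ℝ} (hf : Ort A f) (i : V) (hi : ∑ y, b i y * f y ≠ 0) : l i ∈ S := by
  set p : ℝ[X] := ∏ t ∈ (univ.image l).erase (l i), (X - C t) with hp
  have hp1 : ∀ j, l j ≠ l i → p.eval (l j) = 0 := by
    intro j hj
    rw [hp, eval_prod]
    refine Finset.prod_eq_zero (i := l j) ?_ (by simp)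
    rw [Finset.mem_erase]
    exact ⟨hj, mem_image_of_mem _ (mem_univ _)⟩
  have hp2 : p.eval (l i) ≠ 0 := by
    rw [hp, eval_prod, Finset.prod_ne_zero_iff]
    intro t ht
    rw [Finset.mem_erase] at ht
    simp only [eval_sub, eval_X, eval_C]
    exact sub_ne_zero.mpr (Ne.symm ht.1)
  have hg := poly_eig h1 h3 p f
  refine hS (l i) ((aeval A p) *ᵥ f) ?_ ?_ (hf.poly hA p)
  · intro h0
    have := coef_sum h2 (fun i => (∑ y, b i y * f y) * p.eval (l i)) i
    rw [← hg, h0] at this
    simp only [Pi.zero_apply, mul_zero, Finset.sum_const_zero] at this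
    exact (mul_ne_zero hi hp2) this.symm
  · rw [hg, Matrix.mulVec_sum, Finset.smul_sum]
    refine Finset.sum_congr rfl fun j _ => ?_
    rw [Matrix.mulVec_smul, h1, smul_smul, smul_smul]
    by_cases hj : l j = l i
    · rw [hj]; congr 1; ring
    · rw [hp1 j hj]; simp

/-- the norm bound on the orthogonal complement of the walk vectors -/
lemma norm_bound {A : Matrix V V ℝ} (hA : ∀ x y, A x y = A y x) {s t : ℝ}
    (hS : ∀ θ g, g ≠ 0 → A *ᵥ g = θ • g → Ort A g → θ ∈ Set.Icc s t)
    {f : V → ℝ} (hf : Ort A f) :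
    ∑ x, ((A *ᵥ f) x - (s + t) / 2 * f x) ^ 2 ≤ ((t - s) / 2) ^ 2 * ∑ x, f x ^ 2 := by
  obtain ⟨b, l, h1, h2, h3, h4⟩ := eig hA
  have hc : ∀ i, ∑ y, b i y * ((A *ᵥ f) y - (s + t) / 2 * f y) =
      (∑ y, b i y * f y) * (l i - (s + t) / 2) := by
    intro i
    have e1 := poly_eig h1 h3 X f
    rw [aeval_X] at e1
    have e2 := coef_sum h2 (fun i => (∑ y, b i y * f y) * (X : ℝ[X]).eval (l i)) i
    rw [← e1] at e2
    rw [eval_X] at e2
    have e3 : ∀ y, b i y * ((A *ᵥ f) y - (s + t) / 2 * f y) =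
        b i y * (A *ᵥ f) y - (s + t) / 2 * (b i y * f y) := fun y => by ring
    rw [Finset.sum_congr rfl fun y _ => e3 y, Finset.sum_sub_distrib, ← Finset.mul_sum, e2]
    ring
  rw [h4 (fun x => (A *ᵥ f) x - (s + t) / 2 * f x), h4 f, Finset.mul_sum]
  refine Finset.sum_le_sum fun i _ => ?_
  rw [hc]
  by_cases hi : ∑ y, b i y * f y = 0
  · rw [hi]; simp
  · obtain ⟨m1, m2⟩ := comp_mem hA h1 h2 h3 (Set.Icc s t) hS hf i hi
    rw [mul_pow, mul_comm]
    refine mul_le_mul_of_nonneg_right ?_ (sq_nonneg _)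
    refine sq_le_sq' ?_ ?_ <;> linarith

/-- a polynomial which vanishes on the complement of the walk vectors of `A` has equal values
at `A` and `B` -/
lemma poly_transfer {A B : Matrix V V ℝ} (hA : ∀ x y, A x y = A y x) (hB : ∀ x y, B x y = B y x)
    (h : B.charpoly = A.charpoly) (hw : ∀ k v, wk B k v = wk A k v) (p : ℝ[X])
    (hp : ∀ f, Ort A f → (aeval A p) *ᵥ f = 0) : aeval B p = aeval A p := by
  have symp : ∀ {M : Matrix V V ℝ}, (∀ x y, M x y = M y x) → ∀ (q : ℝ[X]) x y,
      (aeval M q) x y = (aeval M q) y x := by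
    intro M hM q x y
    have h1 : Mᵀ = M := by ext x y; exact hM y x
    have h2 : (aeval M q)ᵀ = aeval M q := by
      rw [aeval_eq_sum_range, Matrix.transpose_sum]
      exact Finset.sum_congr rfl fun i _ => by rw [Matrix.transpose_smul, Matrix.transpose_pow, h1]
    exact congrFun (congrFun h2 y) x
  -- the walk vectors
  have hwv : ∀ k, (fun v => wk B k v) = (fun v => wk A k v) := fun k => funext fun v => hw k v
  have stepA : ∀ {M : Matrix V V ℝ} (k : ℕ), M *ᵥ (fun v => wk M k v) = fun v => wk M (k + 1) v := by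
    intro M k
    funext v
    rw [wk_succ', Matrix.mulVec, dotProduct]
  have powstep : ∀ {M : Matrix V V ℝ} (n k : ℕ), (M ^ n) *ᵥ (fun v => wk M k v) =
      fun v => wk M (k + n) v := by
    intro M n
    induction n with
    | zero => intro k; rw [pow_zero, Matrix.one_mulVec]; rfl
    | succ n ih =>
      intro k
      rw [pow_succ, ← Matrix.mulVec_mulVec, stepA, ih]
      funext v
      congr 1
      ring
  have hC : ∀ k, (aeval B p) *ᵥ (fun v => wk A k v) = (aeval A p) *ᵥ (fun v => wk A k v) := by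
    intro k
    rw [aeval_eq_sum_range, aeval_eq_sum_range, Matrix.sum_mulVec, Matrix.sum_mulVec]
    refine Finset.sum_congr rfl fun i _ => ?_
    rw [Matrix.smul_mulVec, Matrix.smul_mulVec, powstep, ← hwv k, powstep, hwv]
  set N := aeval B p - aeval A p with hN
  have hNs : ∀ x y, N x y = N y x := fun x y => by
    rw [hN, Matrix.sub_apply, Matrix.sub_apply, symp hB, symp hA]
  have hNw : ∀ k, N *ᵥ (fun v => wk A k v) = 0 := fun k => by
    rw [hN, Matrix.sub_mulVec, hC, sub_self]
  -- the columns of `N` are orthogonal to the walk vectors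
  have hNo : ∀ y, Ort A (fun x => N x y) := by
    intro y k
    have := congrFun (hNw k) y
    rw [Matrix.mulVec, dotProduct] at this
    rw [← Pi.zero_apply (M := fun _ => ℝ) y, ← this]
    refine Finset.sum_congr rfl fun x _ => ?_
    show wk A k x * N x y = N y x * wk A k x
    rw [hNs x y, mul_comm]
  have hAN : (aeval A p) * N = 0 := by
    ext x y
    have := congrFun (hp _ (hNo y)) x
    rw [Matrix.mulVec, dotProduct] at this
    rw [Matrix.mul_apply]
    exact this
  have hNT : Nᵀ = N := by ext x y; exact hNs y x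
  have hAT : (aeval A p)ᵀ = aeval A p := by ext x y; exact symp hA p y x
  have hNA : N * (aeval A p) = 0 := by
    have := congrArg Matrix.transpose hAN
    rw [Matrix.transpose_mul, hNT, hAT, Matrix.transpose_zero] at this
    exact this
  have hB' : aeval B p = aeval A p + N := by rw [hN]; abel
  have htr : ∀ q : ℝ[X], Matrix.trace (aeval B q) = Matrix.trace (aeval A q) := by
    intro q
    rw [aeval_eq_sum_range, aeval_eq_sum_range, Matrix.trace_sum, Matrix.trace_sum]
    exact Finset.sum_congr rfl fun i _ => by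
      rw [Matrix.trace_smul, Matrix.trace_smul, trace_pow_eq h]
  have h0 := htr (p * p)
  rw [map_mul, map_mul, hB', add_mul, mul_add, mul_add, hAN, hNA, add_zero, zero_add,
    Matrix.trace_add] at h0
  have h5 : Matrix.trace (N * N) = 0 := by linarith
  have h6 : ∑ x, ∑ y, N x y ^ 2 = 0 := by
    rw [← h5, Matrix.trace]
    refine Finset.sum_congr rfl fun x _ => ?_
    rw [Matrix.diag_apply, Matrix.mul_apply]
    exact Finset.sum_congr rfl fun y _ => by rw [hNs y x]; ring
  have h7 : N = 0 := by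
    ext x y
    have h8 := (Finset.sum_eq_zero_iff_of_nonneg (fun x _ =>
      Finset.sum_nonneg fun y _ => sq_nonneg (N x y))).mp h6 x (mem_univ _)
    have h9 := (Finset.sum_eq_zero_iff_of_nonneg (fun y _ => sq_nonneg (N x y))).mp h8 y
      (mem_univ _)
    exact pow_eq_zero_iff (two_ne_zero) |>.mp h9
  rw [hB', h7, add_zero]

/-- transfer of the eigenvalues -/
lemma eig_transfer {A B : Matrix V V ℝ} (hA : ∀ x y, A x y = A y x) (hB : ∀ x y, B x y = B y x)
    (h : B.charpoly = A.charpoly) (hw : ∀ k v, wk B k v = wk A k v) (S : Set ℝ)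
    (hS : ∀ θ g, g ≠ 0 → A *ᵥ g = θ • g → Ort A g → θ ∈ S) :
    ∀ θ g, g ≠ 0 → B *ᵥ g = θ • g → Ort B g → θ ∈ S := by
  intro θ g hg hgθ hgo
  obtain ⟨b, l, h1, h2, h3, h4⟩ := eig hA
  set p : ℝ[X] := ∏ t ∈ (univ.image l).filter (fun t => t ∈ S), (X - C t) with hp
  have hpA : ∀ f, Ort A f → (aeval A p) *ᵥ f = 0 := by
    intro f hf
    rw [poly_eig h1 h3 p f]
    refine Finset.sum_eq_zero fun i _ => ?_
    by_cases hi : ∑ y, b i y * f y = 0
    · rw [hi]; simp
    · have := comp_mem hA h1 h2 h3 S hS hf i hi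
      have h5 : p.eval (l i) = 0 := by
        rw [hp, eval_prod]
        refine Finset.prod_eq_zero (i := l i) ?_ (by simp)
        rw [Finset.mem_filter]
        exact ⟨mem_image_of_mem _ (mem_univ _), this⟩
      rw [h5]; simp
  have hgA : Ort A g := fun k => by
    have := hgo k
    simp only [hw] at this
    exact this
  have h5 := poly_transfer hA hB h hw p hpA
  have h6 := aeval_mulVec_eig B g θ hgθ p
  rw [h5, hpA g hgA] at h6
  have h7 : p.eval θ = 0 := by
    by_contra h8
    exact (smul_ne_zero h8 hg) h6.symm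
  rw [hp, eval_prod, Finset.prod_eq_zero_iff] at h7
  obtain ⟨t, ht, ht2⟩ := h7
  simp only [eval_sub, eval_X, eval_C] at ht2
  rw [Finset.mem_filter] at ht
  have : θ = t := by linarith
  rw [this]
  exact ht.2

end Pool.Agent.K7.H21.Sp
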