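import Pool.Agent.K7.H21.Sp.Spread

set_option autoImplicit false
set_option linter.unusedSectionVars false

/-!
# Graphs whose nonmain eigenvalues lie in a short interval
-/

namespace Pool.Agent.K7.H21.Sp

open Finset Classical Polynomial
open scoped Matrix
open Pool.Agent.H234RC (Hypo NonIso Reconstructible)

variable {V : Type} [Fintype V]

/-- the norm bound -/
def NB (A : Matrix V V ℝ) (c r : ℝ) : Prop :=
  ∀ f, Ort A f → ∑ x, ((A *ᵥ f) x - c * f x) ^ 2 ≤ r * ∑ x, f x ^ 2

/-- the number of common edges -/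
noncomputable def ov (A B : Matrix V V ℝ) : ℝ := ∑ x, ∑ y, A x y * B x y

/-- the neighbours of `x` which are not neighbours of `y` -/
noncomputable def PP (G : SimpleGraph V) (x y : V) : Finset V :=
  univ.filter (fun w => w ≠ y ∧ G.Adj w x ∧ ¬ G.Adj w y)

lemma mem_PP {G : SimpleGraph V} {x y w : V} :
    w ∈ PP G x y ↔ w ≠ y ∧ G.Adj w x ∧ ¬ G.Adj w y := by simp [PP]

/-- two rows which differ in few places -/
lemma few {G : SimpleGraph V} {c r : ℝ} (hr : r < 5 / 4) (hN : NB (am G) c r) {x y : V}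
    (hxy : x ≠ y) (hw : ∀ k, wk (am G) k x = wk (am G) k y) :
    (PP G x y).card = (PP G y x).card ∧ (PP G x y).card ≤ 1 := by
  set A := am G with hA
  set f : V → ℝ := fun w => (if w = x then 1 else 0) - (if w = y then 1 else 0) with hf
  have hfs : ∀ F : V → ℝ, ∑ w, F w * f w = F x - F y := by
    intro F
    simp only [hf, mul_sub, Finset.sum_sub_distrib, mul_ite, mul_one, mul_zero]
    simp
  have fx : f x = 1 := by
    show (if x = x then (1:ℝ) else 0) - (if x = y then 1 else 0) = 1
    rw [if_pos rfl, if_neg hxy, sub_zero]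
  have fy : f y = -1 := by
    show (if y = x then (1:ℝ) else 0) - (if y = y then 1 else 0) = -1
    rw [if_pos rfl, if_neg hxy.symm, zero_sub]
  have fo : ∀ w, w ≠ x → w ≠ y → f w = 0 := by
    intro w h1 h2
    show (if w = x then (1:ℝ) else 0) - (if w = y then 1 else 0) = 0
    rw [if_neg h1, if_neg h2, sub_zero]
  have hO : Ort A f := fun k => by rw [hfs, hw k, sub_self]
  have hAf : ∀ w, (A *ᵥ f) w = A w x - A w y := fun w => by
    rw [Matrix.mulVec, dotProduct, hfs]
  have hf2 : ∑ w, f w ^ 2 = 2 := by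
    have : ∀ w, f w ^ 2 = f w * f w := fun w => by ring
    rw [Finset.sum_congr rfl fun w _ => this w, hfs, fx, fy]
    norm_num
  have h1 := hN f hO
  rw [hf2] at h1
  -- lower bound
  have h2 : ((PP G x y).card : ℝ) + (PP G y x).card ≤ ∑ w, ((A *ᵥ f) w - c * f w) ^ 2 := by
    have e1 : ((PP G x y).card : ℝ) = ∑ w, if w ∈ PP G x y then (1 : ℝ) else 0 := by simp
    have e2 : ((PP G y x).card : ℝ) = ∑ w, if w ∈ PP G y x then (1 : ℝ) else 0 := by simp
    rw [e1, e2, ← Finset.sum_add_distrib]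
    refine Finset.sum_le_sum fun w _ => ?_
    rw [hAf]
    by_cases hx : w = x
    · subst hx
      have n1 : w ∉ PP G w y := fun h => (G.loopless.irrefl w) (mem_PP.mp h).2.1
      have n2 : w ∉ PP G y w := fun h => (mem_PP.mp h).1 rfl
      rw [if_neg n1, if_neg n2, add_zero]
      exact sq_nonneg _
    by_cases hy : w = y
    · subst hy
      have n1 : w ∉ PP G w x := fun h => (G.loopless.irrefl w) (mem_PP.mp h).2.1
      have n2 : w ∉ PP G x w := fun h => (mem_PP.mp h).1 rfl
      rw [if_neg n1, if_neg n2, add_zero]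
      exact sq_nonneg _
    rw [fo w hx hy, mul_zero, sub_zero]
    by_cases a1 : G.Adj w x
    · by_cases a2 : G.Adj w y
      · have n1 : w ∉ PP G x y := fun h => (mem_PP.mp h).2.2 a2
        have n2 : w ∉ PP G y x := fun h => (mem_PP.mp h).2.2 a1
        rw [if_neg n1, if_neg n2, add_zero]
        exact sq_nonneg _
      · have n2 : w ∉ PP G y x := fun h => (mem_PP.mp h).2.2 a1
        rw [if_pos (mem_PP.mpr ⟨hy, a1, a2⟩), if_neg n2, hA, am_adj a1, am_nadj a2]
        norm_num
    · by_cases a2 : G.Adj w y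
      · have n1 : w ∉ PP G x y := fun h => a1 (mem_PP.mp h).2.1
        rw [if_neg n1, if_pos (mem_PP.mpr ⟨hx, a2, a1⟩), hA, am_nadj a1, am_adj a2]
        norm_num
      · have n1 : w ∉ PP G x y := fun h => a1 (mem_PP.mp h).2.1
        have n2 : w ∉ PP G y x := fun h => a2 (mem_PP.mp h).2.1
        rw [if_neg n1, if_neg n2, add_zero]
        exact sq_nonneg _
  -- the two sets have the same size
  have h3 : ((PP G x y).card : ℝ) = (PP G y x).card := by
    have e0 : ∑ w, (A w x - A w y) = 0 := by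
      rw [Finset.sum_sub_distrib]
      have := hw 1
      rw [wk_one, wk_one] at this
      unfold dg at this
      rw [hA, Finset.sum_congr rfl fun w _ => am_symm G w x,
        Finset.sum_congr rfl fun w _ => am_symm G w y, this, sub_self]
    have e1 : ((PP G x y).card : ℝ) = ∑ w, if w ∈ PP G x y then (1 : ℝ) else 0 := by simp
    have e2 : ((PP G y x).card : ℝ) = ∑ w, if w ∈ PP G y x then (1 : ℝ) else 0 := by simp
    have e3 : ∑ w, A y x * f w = 0 := by
      rw [hfs (fun _ => A y x)]; ring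
    have e4 : ∀ w, (A w x - A w y) + A y x * f w =
        (if w ∈ PP G x y then (1 : ℝ) else 0) - (if w ∈ PP G y x then (1 : ℝ) else 0) := by
      intro w
      by_cases hx : w = x
      · subst hx
        have n1 : w ∉ PP G w y := fun h => (G.loopless.irrefl w) (mem_PP.mp h).2.1
        have n2 : w ∉ PP G y w := fun h => (mem_PP.mp h).1 rfl
        rw [if_neg n1, if_neg n2, fx, hA, am_diag, am_symm G y w]
        ring
      by_cases hy : w = y
      · subst hy
        have n1 : w ∉ PP G w x := fun h => (G.loopless.irrefl w) (mem_PP.mp h).2.1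
        have n2 : w ∉ PP G x w := fun h => (mem_PP.mp h).1 rfl
        rw [if_neg n1, if_neg n2, fy, hA, am_diag]
        ring
      rw [fo w hx hy, mul_zero, add_zero]
      by_cases a1 : G.Adj w x
      · by_cases a2 : G.Adj w y
        · have n1 : w ∉ PP G x y := fun h => (mem_PP.mp h).2.2 a2
          have n2 : w ∉ PP G y x := fun h => (mem_PP.mp h).2.2 a1
          rw [if_neg n1, if_neg n2, hA, am_adj a1, am_adj a2]; norm_num
        · have n2 : w ∉ PP G y x := fun h => (mem_PP.mp h).2.2 a1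
          rw [if_pos (mem_PP.mpr ⟨hy, a1, a2⟩), if_neg n2, hA, am_adj a1, am_nadj a2]
      · by_cases a2 : G.Adj w y
        · have n1 : w ∉ PP G x y := fun h => a1 (mem_PP.mp h).2.1
          rw [if_neg n1, if_pos (mem_PP.mpr ⟨hx, a2, a1⟩), hA, am_nadj a1, am_adj a2]
        · have n1 : w ∉ PP G x y := fun h => a1 (mem_PP.mp h).2.1
          have n2 : w ∉ PP G y x := fun h => a2 (mem_PP.mp h).2.1
          rw [if_neg n1, if_neg n2, hA, am_nadj a1, am_nadj a2]
    rw [e1, e2, ← sub_eq_zero, ← Finset.sum_sub_distrib, ← Finset.sum_congr rfl fun w _ => e4 w,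
      Finset.sum_add_distrib, e0, e3, add_zero]
  refine ⟨by exact_mod_cast h3, ?_⟩
  by_contra h4
  have h5 : (2 : ℝ) ≤ (PP G x y).card := by exact_mod_cast (by omega : 2 ≤ (PP G x y).card)
  linarith

/-- the neighbours of `v` in `K` which are not neighbours in `H` -/
noncomputable def NN (K H : SimpleGraph V) (v : V) : Finset V :=
  univ.filter (fun w => K.Adj w v ∧ ¬ H.Adj w v)

lemma mem_NN {K H : SimpleGraph V} {v w : V} : w ∈ NN K H v ↔ K.Adj w v ∧ ¬ H.Adj w v := by
  simp [NN]

lemma NN_val (K H : SimpleGraph V) (v w : V) : am K w v - am H w v =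
    (if w ∈ NN K H v then (1 : ℝ) else 0) - (if w ∈ NN H K v then (1 : ℝ) else 0) := by
  by_cases a1 : K.Adj w v <;> by_cases a2 : H.Adj w v <;>
    simp [am_apply, mem_NN, a1, a2]

lemma int_mulVec (K : SimpleGraph V) (f : V → ℝ) (hf : ∀ x, ∃ n : ℤ, f x = n) (w : V) :
    ∃ n : ℤ, ((am K) *ᵥ f) w = n := by
  choose n hn using hf
  refine ⟨∑ x, (if K.Adj w x then n x else 0), ?_⟩
  rw [Matrix.mulVec, dotProduct]
  push_cast
  refine Finset.sum_congr rfl fun x _ => ?_
  rw [am_apply, hn]
  split_ifs <;> simp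

/-- every vertex loses at most one neighbour -/
lemma one_diff {K H : SimpleGraph V} {c r : ℝ} (hr : r < 5 / 4) (hN : NB (am K) c r)
    (hw : ∀ k v, wk (am K) k v = wk (am H) k v) (v : V) :
    (NN K H v).card = (NN H K v).card ∧ (NN K H v).card ≤ 1 := by
  set A := am K with hA
  set B := am H with hB
  set f : V → ℝ := fun w => A w v - B w v with hf
  have hO : Ort A f := by
    intro k
    have h1 : ∀ w, wk A k w * f w = A v w * wk A k w - B v w * wk B k w := by
      intro w
      show wk A k w * (A w v - B w v) = _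
      rw [← hw k w, hA, hB, am_symm K v w, am_symm H v w]; ring
    rw [Finset.sum_congr rfl fun w _ => h1 w, Finset.sum_sub_distrib, ← wk_succ', ← wk_succ', hw,
      sub_self]
  have hfv : ∀ w, f w = (if w ∈ NN K H v then (1 : ℝ) else 0) -
      (if w ∈ NN H K v then (1 : ℝ) else 0) := fun w => NN_val K H v w
  have hdis : Disjoint (NN K H v) (NN H K v) := by
    rw [Finset.disjoint_left]
    intro w h1 h2
    exact (mem_NN.mp h1).2 (mem_NN.mp h2).1
  have hcard : ((NN K H v).card : ℝ) = (NN H K v).card := by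
    have h0 := hO 0
    have h1 : ∀ x, wk A 0 x * f x = f x := by
      intro x
      unfold wk
      rw [pow_zero]
      simp [Matrix.one_apply]
    rw [Finset.sum_congr rfl fun x _ => h1 x, Finset.sum_congr rfl fun x _ => hfv x,
      Finset.sum_sub_distrib] at h0
    simp at h0
    linarith
  set t : ℕ := (NN K H v).card with ht
  have hf2 : ∑ w, f w ^ 2 = 2 * t := by
    have h1 : ∀ w, f w ^ 2 = (if w ∈ NN K H v then (1 : ℝ) else 0) +
      (if w ∈ NN H K v then (1 : ℝ) else 0) := by
      intro w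
      rw [hfv]
      by_cases a1 : w ∈ NN K H v
      · have a2 := Finset.disjoint_left.mp hdis a1
        rw [if_pos a1, if_neg a2]; norm_num
      · by_cases a2 : w ∈ NN H K v
        · rw [if_neg a1, if_pos a2]; norm_num
        · rw [if_neg a1, if_neg a2]; norm_num
    rw [Finset.sum_congr rfl fun w _ => h1 w, Finset.sum_add_distrib]
    simp only [Finset.sum_ite_mem, Finset.univ_inter, Finset.sum_const, nsmul_eq_mul, mul_one]
    rw [← hcard]; ring
  have hv0 : f v = 0 := by
    show A v v - B v v = 0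
    rw [hA, hB, am_diag, am_diag, sub_self]
  have hAfv : (A *ᵥ f) v = t := by
    rw [Matrix.mulVec, dotProduct]
    have h1 : ∀ w, A v w * f w = if w ∈ NN K H v then (1 : ℝ) else 0 := by
      intro w
      rw [hfv, hA, am_symm K v w, am_apply]
      by_cases a1 : K.Adj w v
      · have a2 : w ∉ NN H K v := fun h => (mem_NN.mp h).2 a1
        rw [if_pos a1, if_neg a2]; ring
      · have a2 : w ∉ NN K H v := fun h => a1 (mem_NN.mp h).1
        rw [if_neg a1, if_neg a2]; ring
    rw [Finset.sum_congr rfl fun w _ => h1 w]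
    simp [ht]
  have h1 := hN f hO
  rw [hf2] at h1
  set g : V → ℝ := fun w => (A *ᵥ f) w - c * f w with hg
  have hgv : g v = t := by
    show (A *ᵥ f) v - c * f v = t
    rw [hAfv, hv0]; ring
  have h1' : ∑ w, g w ^ 2 ≤ r * (2 * t) := h1
  have hsplit : ∑ w, g w ^ 2 = (t : ℝ) ^ 2 + ∑ w ∈ univ.erase v, g w ^ 2 := by
    rw [← Finset.sum_erase_add _ _ (mem_univ v), hgv]; ring
  have hrest : 0 ≤ ∑ w ∈ univ.erase v, g w ^ 2 := Finset.sum_nonneg fun w _ => sq_nonneg _
  refine ⟨by exact_mod_cast hcard, ?_⟩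
  by_contra hcon
  have ht2 : 2 ≤ t := by omega
  have ht2' : (2 : ℝ) ≤ t := by exact_mod_cast ht2
  have ht3 : (t : ℝ) < 5 / 2 := by nlinarith
  have ht4 : t = 2 := by
    have : (t : ℝ) < 3 := by linarith
    have : t < 3 := by exact_mod_cast this
    omega
  -- the case `t = 2`
  have hsum0 : ∑ w, g w = 0 := by
    show ∑ w, ((A *ᵥ f) w - c * f w) = 0
    rw [Finset.sum_sub_distrib, ← Finset.mul_sum]
    have e1 : ∀ M : Matrix V V ℝ, ∀ h : V → ℝ, ∑ x, wk M 0 x * h x = ∑ x, h x := by
      intro M h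
      refine Finset.sum_congr rfl fun x _ => ?_
      unfold wk
      rw [pow_zero]
      simp [Matrix.one_apply]
    rw [← e1 A f, hO 0, ← e1 A (A *ᵥ f), hO.mulVec (am_symm K) 0, mul_zero, sub_self]
  have hrest2 : ∑ w ∈ univ.erase v, g w ^ 2 < 1 := by
    rw [hsplit, ht4] at h1'
    push_cast at h1'
    nlinarith
  set F := NN K H v ∪ NN H K v with hF
  have hFc : F.card = 4 := by
    rw [hF, Finset.card_union_of_disjoint hdis]
    have : (NN K H v).card = (NN H K v).card := by exact_mod_cast hcard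
    omega
  have hvF : v ∉ F := by
    intro h
    rw [hF, Finset.mem_union, mem_NN, mem_NN] at h
    rcases h with h | h
    · exact K.loopless.irrefl _ h.1
    · exact H.loopless.irrefl _ h.1
  have hFsub : F ⊆ univ.erase v := fun w hw' =>
    Finset.mem_erase.mpr ⟨fun e => hvF (e ▸ hw'), mem_univ _⟩
  have hout : ∀ w ∈ univ.erase v, w ∉ F → g w = 0 := by
    intro w hw' hwF
    have a1 : w ∉ NN K H v := fun h => hwF (Finset.mem_union_left _ h)
    have a2 : w ∉ NN H K v := fun h => hwF (Finset.mem_union_right _ h)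
    have hfw : f w = 0 := by rw [hfv, if_neg a1, if_neg a2, sub_self]
    have hgw : g w = (A *ᵥ f) w := by
      show (A *ᵥ f) w - c * f w = _
      rw [hfw]; ring
    obtain ⟨n, hn⟩ := int_mulVec K f (fun x => by
      rw [hfv]
      split_ifs
      · exact ⟨0, by norm_num⟩
      · exact ⟨1, by norm_num⟩
      · exact ⟨-1, by norm_num⟩
      · exact ⟨0, by norm_num⟩) w
    have h2 : g w ^ 2 ≤ ∑ w ∈ univ.erase v, g w ^ 2 :=
      Finset.single_le_sum (f := fun w => g w ^ 2) (fun w _ => sq_nonneg _) hw'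
    have h3 : g w ^ 2 < 1 := by linarith
    rw [hgw, hn] at h3 ⊢
    have h4 : n ^ 2 < 1 := by exact_mod_cast h3
    have h5 : n = 0 := by nlinarith [sq_nonneg n, abs_nonneg n, sq_abs n]
    rw [h5]; norm_num
  have hsumF : ∑ w ∈ F, g w = -2 := by
    have h2 : ∑ w ∈ univ.erase v, g w = ∑ w ∈ F, g w :=
      (Finset.sum_subset hFsub (fun w h3 h4 => hout w h3 h4)).symm
    have h3 : ∑ w, g w = ∑ w ∈ univ.erase v, g w + g v :=
      (Finset.sum_erase_add _ _ (mem_univ v)).symm
    rw [hsum0, h2, hgv, ht4] at h3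
    push_cast at h3
    linarith
  have hsqF : ∑ w ∈ F, g w ^ 2 ≤ ∑ w ∈ univ.erase v, g w ^ 2 :=
    Finset.sum_le_sum_of_subset_of_nonneg hFsub (fun w _ _ => sq_nonneg _)
  have hCS := sq_sum_le_card_mul_sum_sq (s := F) (f := g)
  rw [hsumF, hFc] at hCS
  push_cast at hCS
  linarith

/-- the change of the number of common edges under a transposition -/
lemma ov_swap {A B : Matrix V V ℝ} (hA : ∀ x y, A x y = A y x) (hB : ∀ x y, B x y = B y x)
    (dA : ∀ x, A x x = 0) {x y v v' : V} (hxy : x ≠ y) (hvx : v ≠ x) (hvy : v ≠ y)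
    (hv'x : v' ≠ x) (hv'y : v' ≠ y) (hvv' : v ≠ v')
    (h1 : A v x = 1) (h2 : A v y = 0) (h3 : A v' x = 0) (h4 : A v' y = 1)
    (ho : ∀ w, w ≠ x → w ≠ y → w ≠ v → w ≠ v' → A w x = A w y) :
    ov (fun a b => A (Equiv.swap x y a) (Equiv.swap x y b)) B =
      ov A B - 2 * ((B v x - B v y) - (B v' x - B v' y)) := by
  set f : V → ℝ := fun w => (if w = x then 1 else 0) - (if w = y then 1 else 0) with hf
  set u : V → ℝ := fun w => (if w = v then 1 else 0) - (if w = v' then 1 else 0) with hu
  have fx : f x = 1 := by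
    show (if x = x then (1:ℝ) else 0) - (if x = y then 1 else 0) = 1
    rw [if_pos rfl, if_neg hxy, sub_zero]
  have fy : f y = -1 := by
    show (if y = x then (1:ℝ) else 0) - (if y = y then 1 else 0) = -1
    rw [if_pos rfl, if_neg hxy.symm, zero_sub]
  have fo : ∀ w, w ≠ x → w ≠ y → f w = 0 := by
    intro w h1 h2
    show (if w = x then (1:ℝ) else 0) - (if w = y then 1 else 0) = 0
    rw [if_neg h1, if_neg h2, sub_zero]
  have uv : u v = 1 := by
    show (if v = v then (1:ℝ) else 0) - (if v = v' then 1 else 0) = 1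
    rw [if_pos rfl, if_neg hvv', sub_zero]
  have uv' : u v' = -1 := by
    show (if v' = v then (1:ℝ) else 0) - (if v' = v' then 1 else 0) = -1
    rw [if_pos rfl, if_neg hvv'.symm, zero_sub]
  have uo : ∀ w, w ≠ v → w ≠ v' → u w = 0 := by
    intro w h1 h2
    show (if w = v then (1:ℝ) else 0) - (if w = v' then 1 else 0) = 0
    rw [if_neg h1, if_neg h2, sub_zero]
  have ux : u x = 0 := uo x hvx.symm hv'x.symm
  have uy : u y = 0 := uo y hvy.symm hv'y.symm
  have hfs : ∀ F : V → ℝ, ∑ w, F w * f w = F x - F y := by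
    intro F
    simp only [hf, mul_sub, Finset.sum_sub_distrib, mul_ite, mul_one, mul_zero]
    simp
  have hus : ∀ F : V → ℝ, ∑ w, F w * u w = F v - F v' := by
    intro F
    simp only [hu, mul_sub, Finset.sum_sub_distrib, mul_ite, mul_one, mul_zero]
    simp
  -- `u` is the difference of the rows
  have hu1 : ∀ w, w ≠ x → w ≠ y → A w x - A w y = u w := by
    intro w hwx hwy
    by_cases e1 : w = v
    · subst e1; rw [uv, h1, h2]; ring
    by_cases e2 : w = v'
    · subst e2; rw [uv', h3, h4]; ring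
    rw [uo w e1 e2, ho w hwx hwy e1 e2, sub_self]
  have sx : Equiv.swap x y x = y := Equiv.swap_apply_left x y
  have sy : Equiv.swap x y y = x := Equiv.swap_apply_right x y
  have so : ∀ w, w ≠ x → w ≠ y → Equiv.swap x y w = w :=
    fun w h1 h2 => Equiv.swap_apply_of_ne_of_ne h1 h2
  have key : ∀ a b, A (Equiv.swap x y a) (Equiv.swap x y b) = A a b - f a * u b - u a * f b := by
    intro a b
    by_cases ax : a = x
    · rw [ax, sx, fx, ux]
      by_cases bx : b = x
      · rw [bx, sx, ux, dA, dA]; ring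
      by_cases by' : b = y
      · rw [by', sy, uy, hA y x]; ring
      rw [so b bx by', ← hu1 b bx by', hA b x, hA b y]; ring
    by_cases ay : a = y
    · rw [ay, sy, fy, uy]
      by_cases bx : b = x
      · rw [bx, sx, ux, hA x y]; ring
      by_cases by' : b = y
      · rw [by', sy, uy, dA, dA]; ring
      rw [so b bx by', ← hu1 b bx by', hA b x, hA b y]; ring
    rw [so a ax ay, fo a ax ay]
    by_cases bx : b = x
    · rw [bx, sx, fx, ← hu1 a ax ay]; ring
    by_cases by' : b = y
    · rw [by', sy, fy, ← hu1 a ax ay]; ring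
    rw [so b bx by', fo b bx by']; ring
  unfold ov
  have e1 : ∀ a b, A (Equiv.swap x y a) (Equiv.swap x y b) * B a b =
      A a b * B a b - f a * (B a b * u b) - u a * (B a b * f b) := fun a b => by
    rw [key]; ring
  have e2 : ∀ a, ∑ b, A (Equiv.swap x y a) (Equiv.swap x y b) * B a b =
      ∑ b, A a b * B a b - (B a v - B a v') * f a - (B a x - B a y) * u a := by
    intro a
    rw [Finset.sum_congr rfl fun b _ => e1 a b, Finset.sum_sub_distrib, Finset.sum_sub_distrib,
      ← Finset.mul_sum, ← Finset.mul_sum, hfs, hus]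
    ring
  rw [Finset.sum_congr rfl fun a _ => e2 a, Finset.sum_sub_distrib, Finset.sum_sub_distrib,
    hfs, hus, hB x v, hB x v', hB y v, hB y v']
  ring

/-- a better relabelling -/
lemma improve {K H : SimpleGraph V} {c r : ℝ} (hr : r < 5 / 4) (hK : NB (am K) c r)
    (hH : NB (am H) c r) (hw : ∀ k v, wk (am K) k v = wk (am H) k v) (hne : K ≠ H) :
    ∃ x y, (∀ k, wk (am K) k x = wk (am K) k y) ∧
      ov (am K) (am H) < ov (am (rel K (Equiv.swap x y))) (am H) := by
  -- a vertex with a lost neighbour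
  obtain ⟨v, hv⟩ : ∃ v, (NN K H v).Nonempty := by
    by_contra hcon
    push Not at hcon
    apply hne
    ext a b
    have h1 := hcon b
    have h2 : NN H K b = ∅ := by
      rw [← Finset.card_eq_zero, ← (one_diff hr hK hw b).1, h1, Finset.card_empty]
    constructor
    · intro h
      by_contra h'
      have : a ∈ NN K H b := mem_NN.mpr ⟨h, h'⟩
      rw [h1] at this
      simp at this
    · intro h
      by_contra h'
      have : a ∈ NN H K b := mem_NN.mpr ⟨h, h'⟩
      rw [h2] at this
      simp at this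
  obtain ⟨hc1, hc2⟩ := one_diff hr hK hw v
  have hc3 : (NN K H v).card = 1 := le_antisymm hc2 (Finset.card_pos.mpr hv)
  obtain ⟨x, hx⟩ := Finset.card_eq_one.mp hc3
  obtain ⟨y, hy⟩ := Finset.card_eq_one.mp (hc1 ▸ hc3)
  have hx' : K.Adj x v ∧ ¬ H.Adj x v := mem_NN.mp (by rw [hx]; simp)
  have hy' : H.Adj y v ∧ ¬ K.Adj y v := mem_NN.mp (by rw [hy]; simp)
  have hxy : x ≠ y := fun e => hy'.2 (e ▸ hx'.1)
  have hwxy : ∀ k, wk (am K) k x = wk (am K) k y := by
    intro k
    have h1 : wk (am K) (k + 1) v = wk (am H) (k + 1) v := hw _ _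
    rw [wk_succ', wk_succ'] at h1
    have h2 : ∑ w, wk (am K) k w * (am K w v - am H w v) = 0 := by
      have : ∀ w, wk (am K) k w * (am K w v - am H w v) =
          am K v w * wk (am K) k w - am H v w * wk (am H) k w := by
        intro w
        rw [← hw k w, am_symm K v w, am_symm H v w]; ring
      rw [Finset.sum_congr rfl fun w _ => this w, Finset.sum_sub_distrib, h1, sub_self]
    have h3 : ∀ w, wk (am K) k w * (am K w v - am H w v) =
        (if w = x then wk (am K) k w else 0) - (if w = y then wk (am K) k w else 0) := by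
      intro w
      rw [NN_val, hx, hy]
      simp only [Finset.mem_singleton, mul_sub, mul_ite, mul_one, mul_zero]
    rw [Finset.sum_congr rfl fun w _ => h3 w, Finset.sum_sub_distrib] at h2
    simp at h2
    linarith
  have hwxy' : ∀ k, wk (am H) k y = wk (am H) k x := fun k => by rw [← hw, ← hw, hwxy]
  refine ⟨x, y, hwxy, ?_⟩
  obtain ⟨f1, f2⟩ := few hr hK hxy hwxy
  obtain ⟨g1, g2⟩ := few hr hH hxy.symm hwxy'
  have hvx : v ≠ x := hx'.1.ne'
  have hvy : v ≠ y := hy'.1.ne'
  have hvK : v ∈ PP K x y := mem_PP.mpr ⟨hvy, hx'.1.symm, fun h => hy'.2 h.symm⟩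
  have hvH : v ∈ PP H y x := mem_PP.mpr ⟨hvx, hy'.1.symm, fun h => hx'.2 h.symm⟩
  have f3 : (PP K x y).card = 1 := le_antisymm f2 (Finset.card_pos.mpr ⟨v, hvK⟩)
  have f4 : (PP K y x).card = 1 := f1 ▸ f3
  obtain ⟨v0, hv0⟩ := Finset.card_eq_one.mp f3
  have hv0' : v = v0 := by rw [hv0] at hvK; simpa using hvK
  subst hv0'
  obtain ⟨v', hv'⟩ := Finset.card_eq_one.mp f4
  have hv'K : v' ∈ PP K y x := by rw [hv']; simp
  obtain ⟨m1, m2, m3⟩ := mem_PP.mp hv'K
  have m4 : v' ≠ y := m2.ne
  have hvv' : v ≠ v' := fun e => m3 (e ▸ hx'.1.symm)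
  have ho : ∀ w, w ≠ x → w ≠ y → w ≠ v → w ≠ v' → am K w x = am K w y := by
    intro w h1 h2 h3 h4
    by_cases a1 : K.Adj w x
    · by_cases a2 : K.Adj w y
      · rw [am_adj a1, am_adj a2]
      · exfalso
        have : w ∈ PP K x y := mem_PP.mpr ⟨h2, a1, a2⟩
        rw [hv0] at this
        exact h3 (by simpa using this)
    · by_cases a2 : K.Adj w y
      · exfalso
        have : w ∈ PP K y x := mem_PP.mpr ⟨h1, a2, a1⟩
        rw [hv'] at this
        exact h4 (by simpa using this)
      · rw [am_nadj a1, am_nadj a2]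
  have h5 := ov_swap (am_symm K) (am_symm H) (am_diag K) hxy hvx hvy m1 m4 hvv'
    (am_adj hx'.1.symm) (am_nadj fun h => hy'.2 h.symm) (am_nadj m3) (am_adj m2) ho
  have h6 : (fun a b => am K (Equiv.swap x y a) (Equiv.swap x y b)) =
      am (rel K (Equiv.swap x y)) := by
    funext a b
    rw [am_rel]
  rw [h6] at h5
  rw [h5, am_nadj (fun h => hx'.2 h.symm), am_adj hy'.1.symm]
  -- the vertex `v'`
  have h7 : ¬ (¬ H.Adj v' x ∧ H.Adj v' y) := by
    rintro ⟨a1, a2⟩
    have : v' ∈ PP H y x := mem_PP.mpr ⟨m1, a2, a1⟩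
    have hcard : (PP H y x).card ≤ 1 := g2
    exact hvv' (Finset.card_le_one.mp hcard v hvH v' this)
  have h8 : -1 < am H v' x - am H v' y := by
    by_cases a1 : H.Adj v' x
    · rw [am_adj a1]
      rcases am_01 H v' y with h | h <;> rw [h] <;> norm_num
    · have a2 : ¬ H.Adj v' y := fun h => h7 ⟨a1, h⟩
      rw [am_nadj a1, am_nadj a2]; norm_num
  linarith

lemma wk_rel (G : SimpleGraph V) (σ : Equiv.Perm V) (k : ℕ) (x : V) :
    wk (am (rel G σ)) k x = wk (am G) k (σ x) := by
  induction k generalizing x with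
  | zero =>
    unfold wk
    rw [pow_zero, pow_zero]
    simp [Matrix.one_apply]
  | succ k ih =>
    rw [wk_succ', wk_succ', ← Equiv.sum_comp σ (fun w => am G (σ x) w * wk (am G) k w)]
    exact Finset.sum_congr rfl fun w _ => by rw [ih, am_rel]

lemma NB_rel {G : SimpleGraph V} {c r : ℝ} (h : NB (am G) c r) (σ : Equiv.Perm V) :
    NB (am (rel G σ)) c r := by
  intro f hf
  have h1 := h (fun x => f (σ.symm x)) (fun k => by
    rw [← Equiv.sum_comp σ]
    simp only [Equiv.symm_apply_apply]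
    rw [← hf k]
    exact Finset.sum_congr rfl fun x _ => by rw [wk_rel])
  rw [← Equiv.sum_comp σ (fun x => ((am G *ᵥ fun x => f (σ.symm x)) x - c * f (σ.symm x)) ^ 2),
    ← Equiv.sum_comp σ (fun x => f (σ.symm x) ^ 2)] at h1
  simp only [Equiv.symm_apply_apply] at h1
  refine le_trans (le_of_eq ?_) h1
  refine Finset.sum_congr rfl fun x _ => ?_
  congr 2
  rw [Matrix.mulVec, dotProduct, Matrix.mulVec, dotProduct,
    ← Equiv.sum_comp σ (fun y => am G (σ x) y * f (σ.symm y))]
  exact Finset.sum_congr rfl fun y _ => by rw [am_rel, Equiv.symm_apply_apply]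

/-- **main theorem** -/
theorem spread_main {G H : SimpleGraph V} {π : V → Equiv.Perm V} (hV : 3 ≤ Fintype.card V)
    (hH : Hypo G H π) (hN : NonIso G H) (s t : ℝ) (hst : (t - s) ^ 2 < 5)
    (h : ∀ (θ : ℝ) (g : V → ℝ), g ≠ 0 → (am G) *ᵥ g = θ • g → ∑ x, g x = 0 →
      s ≤ θ ∧ θ ≤ t) : False := by
  obtain ⟨h1, -, h3⟩ := spectral hV hH hN
  have hw : ∀ k v, wk (am H) k v = wk (am G) k v := fun k v => wk_eq h1 v (h3 v) k
  have hS : ∀ θ g, g ≠ 0 → (am G) *ᵥ g = θ • g → Ort (am G) g → θ ∈ Set.Icc s t := by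
    intro θ g hg hg2 hg3
    refine h θ g hg hg2 ?_
    rw [← hg3 0]
    refine Finset.sum_congr rfl fun x _ => ?_
    unfold wk
    rw [pow_zero]
    simp [Matrix.one_apply]
  have hSH := eig_transfer (am_symm G) (am_symm H) h1 hw (Set.Icc s t) hS
  have hNG : NB (am G) ((s + t) / 2) (((t - s) / 2) ^ 2) :=
    fun f hf => norm_bound (am_symm G) hS hf
  have hNH : NB (am H) ((s + t) / 2) (((t - s) / 2) ^ 2) :=
    fun f hf => norm_bound (am_symm H) hSH hf
  have hr : ((t - s) / 2) ^ 2 < 5 / 4 := by rw [div_pow]; linarith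
  -- the best relabelling
  set T : Finset (Equiv.Perm V) :=
    univ.filter (fun σ => ∀ k x, wk (am G) k (σ x) = wk (am G) k x) with hT
  have hT1 : T.Nonempty := ⟨1, by rw [hT, Finset.mem_filter]; exact ⟨mem_univ _, fun k x => rfl⟩⟩
  obtain ⟨σ, hσ, hmax⟩ := Finset.exists_max_image T (fun σ => ov (am (rel G σ)) (am H)) hT1
  rw [hT, Finset.mem_filter] at hσ
  have hne : rel G σ ≠ H := by
    intro e
    refine hN ⟨σ.symm, fun x y => ?_⟩
    rw [← e, rel_adj, Equiv.apply_symm_apply, Equiv.apply_symm_apply]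
  obtain ⟨x, y, hxy, hlt⟩ := improve hr (NB_rel hNG σ) hNH
    (fun k v => by rw [wk_rel, hσ.2, hw]) hne
  have hmem : (Equiv.swap x y).trans σ ∈ T := by
    rw [hT, Finset.mem_filter]
    refine ⟨mem_univ _, fun k z => ?_⟩
    rw [Equiv.trans_apply, hσ.2]
    have hxy' : wk (am G) k x = wk (am G) k y := by
      have := hxy k
      rw [wk_rel, wk_rel, hσ.2, hσ.2] at this
      exact this
    by_cases e1 : z = x
    · rw [e1, Equiv.swap_apply_left, hxy']
    by_cases e2 : z = y
    · rw [e2, Equiv.swap_apply_right, hxy']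
    rw [Equiv.swap_apply_of_ne_of_ne e1 e2]
  have h5 := hmax _ hmem
  have h6 : rel G ((Equiv.swap x y).trans σ) = rel (rel G σ) (Equiv.swap x y) := by
    ext a b
    rw [rel_adj, rel_adj, rel_adj]
    rfl
  simp only [h6] at h5
  linarith

end Pool.Agent.K7.H21.Sp
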