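import Pool.Agent.K7.H21.Sp.Graph

set_option autoImplicit false
set_option linter.unusedSectionVars false

/-!
# Graphs with at most three distinct eigenvalues
-/

namespace Pool.Agent.K7.H21.Sp

open Finset Classical
open scoped Matrix
open Pool.Agent.H234RC (Hypo NonIso Reconstructible)

variable {V : Type} [Fintype V]

/-- entries of the square -/
def s2 (A : Matrix V V ℝ) (x y : V) : ℝ := ∑ u, A x u * A u y

/-- entries of the cube -/
def s3 (A : Matrix V V ℝ) (x y : V) : ℝ := ∑ u, A x u * s2 A u y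

lemma s2_eq (A : Matrix V V ℝ) (x y : V) : (A ^ 2) x y = s2 A x y := by
  rw [sq, Matrix.mul_apply]; rfl

lemma s3_eq (A : Matrix V V ℝ) (x y : V) : (A ^ 3) x y = s3 A x y := by
  rw [pow_succ', Matrix.mul_apply]
  exact Finset.sum_congr rfl fun u _ => by rw [s2_eq]

lemma s2_symm (A : Matrix V V ℝ) (hA : ∀ x y, A x y = A y x) (x y : V) : s2 A x y = s2 A y x := by
  unfold s2
  exact Finset.sum_congr rfl fun u _ => by rw [hA x u, hA u y]; ring

section off
variable {A B : Matrix V V ℝ} (v : V) (hAB : ∀ x y, x ≠ v → y ≠ v → A x y = B x y)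
  (dA : ∀ x, A x x = 0) (dB : ∀ x, B x x = 0)
include hAB

lemma off2 (x y : V) (hx : x ≠ v) (hy : y ≠ v) :
    s2 A x y - A x v * A v y = s2 B x y - B x v * B v y := by
  unfold s2
  rw [← Finset.sum_erase_add _ _ (mem_univ v),
    ← Finset.sum_erase_add (s := univ) (fun u => B x u * B u y) (mem_univ v)]
  rw [add_sub_cancel_right, add_sub_cancel_right]
  refine Finset.sum_congr rfl fun u hu => ?_
  have hu' := Finset.ne_of_mem_erase hu
  rw [hAB x u hx hu', hAB u y hu' hy]

include dA dB

lemma off3 (x y : V) (hx : x ≠ v) (hy : y ≠ v) :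
    s3 A x y - A x v * s2 A v y - s2 A x v * A v y =
      s3 B x y - B x v * s2 B v y - s2 B x v * B v y := by
  have key : ∀ M : Matrix V V ℝ, M v v = 0 → s3 M x y - M x v * s2 M v y - s2 M x v * M v y =
      ∑ u ∈ univ.erase v, M x u * (s2 M u y - M u v * M v y) := by
    intro M hM
    have h1 : s2 M x v = ∑ u ∈ univ.erase v, M x u * M u v := by
      unfold s2
      rw [← Finset.sum_erase_add _ _ (mem_univ v), hM]
      ring
    unfold s3
    rw [← Finset.sum_erase_add _ _ (mem_univ v), h1, Finset.sum_mul]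
    rw [show ∀ p q r : ℝ, p + q - q - r = p - r from fun p q r => by ring, ← Finset.sum_sub_distrib]
    exact Finset.sum_congr rfl fun u _ => by ring
  rw [key A (dA v), key B (dB v)]
  refine Finset.sum_congr rfl fun u hu => ?_
  have hu' := Finset.ne_of_mem_erase hu
  rw [hAB x u hx hu', off2 v hAB u y hu' hy]

end off

/-- The combinatorial lemma on two solutions. -/
lemma two_sol (v : V) (a b za zb : V → ℝ) (av : a v = 0) (bv : b v = 0)
    (ha : ∀ x, a x = 0 ∨ a x = 1) (hb : ∀ x, b x = 0 ∨ b x = 1) (hs : ∑ x, a x = ∑ x, b x)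
    (hne : a ≠ b)
    (h : ∀ x y, x ≠ v → y ≠ v → a x * za y + za x * a y = b x * zb y + zb x * b y) :
    ∃ m : ℝ, ∀ w, w ≠ v → za w = m * b w := by
  -- a vertex with `a = 1`, `b = 0`
  obtain ⟨y, hy1, hy2⟩ : ∃ y, a y = 1 ∧ b y = 0 := by
    by_contra hcon
    push Not at hcon
    have hle : ∀ x, a x ≤ b x := by
      intro x
      rcases ha x with h1 | h1
      · rw [h1]; rcases hb x with h2 | h2 <;> rw [h2]; norm_num
      · rcases hb x with h2 | h2
        · exact absurd h2 (hcon x h1)
        · rw [h1, h2]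
    have heq := (Finset.sum_eq_sum_iff_of_le (fun x (_ : x ∈ univ) => hle x)).mp hs
    exact hne (funext fun x => heq x (mem_univ x))
  have hyv : y ≠ v := by rintro rfl; rw [av] at hy1; norm_num at hy1
  have h1 := h y y hyv hyv
  rw [hy1, hy2] at h1
  have h2 : za y = 0 := by linarith
  refine ⟨zb y, fun w hw => ?_⟩
  have h3 := h y w hyv hw
  rw [hy1, hy2, h2] at h3
  linarith

lemma s2_rel (H : SimpleGraph V) (σ : Equiv.Perm V) (x y : V) :
    s2 (am (rel H σ)) x y = s2 (am H) (σ x) (σ y) := by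
  unfold s2
  rw [← Equiv.sum_comp σ (fun u => am H (σ x) u * am H u (σ y))]
  exact Finset.sum_congr rfl fun u _ => by rw [am_rel, am_rel]

lemma s3_rel (H : SimpleGraph V) (σ : Equiv.Perm V) (x y : V) :
    s3 (am (rel H σ)) x y = s3 (am H) (σ x) (σ y) := by
  unfold s3
  rw [← Equiv.sum_comp σ (fun u => am H (σ x) u * s2 (am H) u (σ y))]
  exact Finset.sum_congr rfl fun u _ => by rw [am_rel, s2_rel]

lemma am_01 (G : SimpleGraph V) (x y : V) : am G x y = 0 ∨ am G x y = 1 := by
  rw [am_apply]; split_ifs <;> simp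

lemma s2_diag (G : SimpleGraph V) (x : V) : s2 (am G) x x = dg G x := by
  unfold s2 dg
  refine Finset.sum_congr rfl fun u _ => ?_
  rw [am_symm G u x]
  rcases am_01 G x u with h | h <;> rw [h] <;> ring

/-- Perron-Frobenius -/
lemma perron (G : SimpleGraph V) [Nonempty V]
    (hconn : ∀ W : Finset V, W.Nonempty → (univ \ W).Nonempty → ∃ x ∈ W, ∃ y, y ∉ W ∧ G.Adj x y)
    (d f : V → ℝ) (θ : ℝ) (hd : ∀ x, 0 < d x) (h1 : ∀ x, ∑ u, am G x u * d u = θ * d x)
    (h2 : ∀ x, ∑ u, am G x u * f u = θ * f x) : ∃ κ : ℝ, ∀ x, f x = κ * d x := by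
  obtain ⟨u0, -, hu0⟩ := Finset.exists_min_image univ (fun x => f x / d x) univ_nonempty
  set κ := f u0 / d u0 with hκ
  set g : V → ℝ := fun x => f x - κ * d x with hg
  have g0 : ∀ x, 0 ≤ g x := by
    intro x
    have h3 := hu0 x (mem_univ x)
    have h4 : κ * d x ≤ f x := by
      rw [le_div_iff₀ (hd x)] at h3
      exact h3
    simp only [hg]
    linarith
  have gu : g u0 = 0 := by
    simp only [hg, hκ]
    rw [div_mul_cancel₀ _ (hd u0).ne']
    ring
  have gA : ∀ x, ∑ u, am G x u * g u = θ * g x := by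
    intro x
    simp only [hg]
    have : ∀ u, am G x u * (f u - κ * d u) = am G x u * f u - κ * (am G x u * d u) :=
      fun u => by ring
    rw [Finset.sum_congr rfl fun u _ => this u, Finset.sum_sub_distrib, ← Finset.mul_sum, h1, h2]
    ring
  refine ⟨κ, ?_⟩
  by_contra hcon
  push Not at hcon
  obtain ⟨y0, hy0⟩ := hcon
  obtain ⟨x, hx, y, hy, hxy⟩ := hconn (univ.filter (fun x => g x = 0)) ⟨u0, by simp [gu]⟩
    ⟨y0, by
      simp only [mem_sdiff, mem_univ, mem_filter, true_and]
      intro h
      simp only [hg] at h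
      exact hy0 (by linarith)⟩
  rw [mem_filter] at hx
  have h5 := gA x
  rw [hx.2, mul_zero] at h5
  have h6 := (Finset.sum_eq_zero_iff_of_nonneg (fun u _ => mul_nonneg (am_nonneg G x u) (g0 u))).mp
    h5 y (mem_univ y)
  rw [am_adj hxy, one_mul] at h6
  exact hy (by simp [h6])

theorem three_main {G H : SimpleGraph V} {π : V → Equiv.Perm V} (hV : 3 ≤ Fintype.card V)
    (hH : Hypo G H π) (hN : NonIso G H) (h3 : (spectrum ℝ (am G)).ncard ≤ 3) : False := by
  have hne : Nonempty V := Fintype.card_pos_iff.mp (by omega)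
  obtain ⟨hφ, -, -⟩ := spectral hV hH hN
  obtain ⟨a, b, c, cG, cH⟩ := cubic_of_spectrum (am_symm G) (am_symm H) hφ h3
  have cub : ∀ K : SimpleGraph V, (am K) ^ 3 = a • (am K) ^ 2 + b • am K + c • 1 → ∀ x y,
      s3 (am K) x y = a * s2 (am K) x y + b * am K x y + (if x = y then c else 0) := by
    intro K hK x y
    have h := congrFun (congrFun hK x) y
    rw [s3_eq] at h
    rw [h]
    simp only [Matrix.add_apply, Matrix.smul_apply, smul_eq_mul, s2_eq, Matrix.one_apply, mul_ite,
      mul_one, mul_zero]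
  have cG' := cub G cG
  have cH' := cub H cH
  have conn' := conn hV hH hN
  have coconn' := coconn hV hH hN
  have card2 : ∀ v : V, (univ \ {v}).Nonempty := by
    intro v
    obtain ⟨w, hw⟩ := Fintype.exists_ne_of_one_lt_card (by omega : 1 < Fintype.card V) v
    exact ⟨w, by simp [hw]⟩
  have hnb : ∀ v, ∃ w, G.Adj v w := by
    intro v
    obtain ⟨x, hx, y, -, hxy⟩ := conn' {v} (singleton_nonempty v) (by convert card2 v)
    rw [mem_singleton] at hx
    exact ⟨y, hx ▸ hxy⟩
  have hnn : ∀ v, ∃ w, w ≠ v ∧ ¬ G.Adj v w := by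
    intro v
    obtain ⟨x, hx, y, hy, hxy⟩ := coconn' {v} (singleton_nonempty v) (by convert card2 v)
    rw [mem_singleton] at hx hy
    exact ⟨y, hy, hx ▸ hxy⟩
  -- common neighbours
  have s2nn : ∀ x y, 0 ≤ s2 (am G) x y := fun x y =>
    Finset.sum_nonneg fun u _ => mul_nonneg (am_nonneg G x u) (am_nonneg G u y)
  have s2pos : ∀ x u y, G.Adj x u → G.Adj u y → 0 < s2 (am G) x y := by
    intro x u y h1 h2
    unfold s2
    refine Finset.sum_pos' (fun u _ => mul_nonneg (am_nonneg G x u) (am_nonneg G u y))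
      ⟨u, mem_univ u, ?_⟩
    rw [am_adj h1, am_adj h2]; norm_num
  have diam : ∀ v w, w ≠ v → ¬ G.Adj w v → 0 < s2 (am G) w v := by
    intro v
    by_contra hcon
    push Not at hcon
    obtain ⟨w, hw1, hw2, hw3⟩ := hcon
    obtain ⟨x, hx, y, hy, hxy⟩ := conn'
      (univ.filter (fun x => x = v ∨ G.Adj x v ∨ 0 < s2 (am G) x v)) ⟨v, by simp⟩
      ⟨w, by
        simp only [mem_sdiff, mem_univ, mem_filter, true_and, not_or, not_lt]
        exact ⟨hw1, hw2, hw3⟩⟩
    simp only [mem_filter, mem_univ, true_and, not_or, not_lt] at hx hy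
    obtain ⟨hy1, hy2, hy3⟩ := hy
    have hx' : 0 < s2 (am G) x v := by
      rcases hx with rfl | hx | hx
      · exact absurd hxy.symm hy2
      · exact absurd (s2pos y x v hxy.symm hx) (not_lt.mpr hy3)
      · exact hx
    have h5 : 0 < s3 (am G) y v := by
      unfold s3
      refine Finset.sum_pos' (fun u _ => mul_nonneg (am_nonneg G y u) (s2nn u v))
        ⟨x, mem_univ x, ?_⟩
      rw [am_adj hxy.symm, one_mul]
      exact hx'
    rw [cG', am_nadj hy2, if_neg hy1, le_antisymm hy3 (s2nn y v)] at h5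
    norm_num at h5
  -- the second solution
  have hsol : ∀ v, ∃ m : ℝ, ∀ w, w ≠ v → s2 (am G) w v - a / 2 * am G w v =
      m * am (rel H (π v)) w v := by
    intro v
    have hrel : ∀ x y, x ≠ v → y ≠ v → am G x y = am (rel H (π v)) x y := by
      intro x y hx hy
      rw [am_apply, am_apply]
      simp only [rel_off hH v x y hx hy]
    refine two_sol v (fun x => am G x v) (fun x => am (rel H (π v)) x v) _
      (fun w => s2 (am (rel H (π v))) w v - a / 2 * am (rel H (π v)) w v) (am_diag _ _)
      (am_diag _ _) (fun x => am_01 G x v) (fun x => am_01 _ x v) ?_ ?_ ?_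
    · have e1 : ∀ K : SimpleGraph V, ∑ x, am K x v = dg K v := fun K =>
        Finset.sum_congr rfl fun x _ => am_symm K x v
      show ∑ x, am G x v = ∑ x, am (rel H (π v)) x v
      rw [e1, e1, dg_rel, hH.fix, dg_hyp hV hH hN]
    · intro he
      refine rel_ne hN (π v) ?_
      ext x y
      by_cases hx : x = v
      · subst hx
        have := congrFun he y
        simp only [am_apply] at this
        rw [SimpleGraph.adj_comm, G.adj_comm]
        by_cases h1 : G.Adj y x
        · simp only [h1, if_true] at this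
          by_cases h2 : (rel H (π x)).Adj y x
          · simp [h1, h2]
          · simp [h2] at this
        · simp only [h1, if_false] at this
          by_cases h2 : (rel H (π x)).Adj y x
          · simp [h2] at this
          · simp [h1, h2]
      · by_cases hy : y = v
        · subst hy
          have := congrFun he x
          simp only [am_apply] at this
          by_cases h1 : G.Adj x y
          · simp only [h1, if_true] at this
            by_cases h2 : (rel H (π y)).Adj x y
            · simp [h1, h2]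
            · simp [h2] at this
          · simp only [h1, if_false] at this
            by_cases h2 : (rel H (π y)).Adj x y
            · simp [h2] at this
            · simp [h1, h2]
        · exact rel_off hH v x y hx hy
    · intro x y hx hy
      have o2 := off2 v hrel x y hx hy
      have o3 := off3 v hrel (am_diag G) (am_diag _) x y hx hy
      have hc2 : s3 (am (rel H (π v))) x y = a * s2 (am (rel H (π v))) x y +
          b * am (rel H (π v)) x y + (if x = y then c else 0) := by
        rw [s3_rel, s2_rel, am_rel, cH']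
        simp only [(π v).injective.eq_iff]
      rw [cG', hc2, ← hrel x y hx hy] at o3
      rw [s2_symm _ (am_symm G) v y, s2_symm _ (am_symm _) v y, am_symm G v y,
        am_symm (rel H (π v)) v y] at o3
      rw [am_symm G v y, am_symm (rel H (π v)) v y] at o2
      linear_combination (-1) * o3 + a * o2
  choose m hm using hsol
  have hm1 : ∀ v w, w ≠ v → ¬ G.Adj w v → am (rel H (π v)) w v = 1 ∧ m v = s2 (am G) w v := by
    intro v w hw hwv
    have h1 := hm v w hw
    rw [am_nadj hwv, mul_zero, sub_zero] at h1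
    have h2 := diam v w hw hwv
    rcases am_01 (rel H (π v)) w v with h3 | h3
    · rw [h3, mul_zero] at h1
      rw [h1] at h2
      exact absurd h2 (lt_irrefl _)
    · rw [h3, mul_one] at h1
      exact ⟨h3, h1.symm⟩
  have hmc : ∀ v w, m v = m w := by
    intro v
    by_contra hcon
    push Not at hcon
    obtain ⟨w, hw⟩ := hcon
    obtain ⟨x, hx, y, hy, hxy⟩ := coconn' (univ.filter (fun x => m x = m v)) ⟨v, by simp⟩
      ⟨w, by simp [Ne.symm hw]⟩
    simp only [mem_filter, mem_univ, true_and] at hx hy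
    have hne' : y ≠ x := by rintro rfl; exact hy hx
    have h1 := (hm1 x y hne' (fun h => hxy h.symm)).2
    have h2 := (hm1 y x hne'.symm hxy).2
    rw [s2_symm _ (am_symm G)] at h2
    exact hy (by rw [h2, ← h1, hx])
  obtain ⟨v0⟩ := hne
  set μ := m v0 with hμ
  have hmμ : ∀ v, m v = μ := fun v => hmc v v0
  have μpos : 0 < μ := by
    obtain ⟨w, hw, hw2⟩ := hnn v0
    rw [hμ, (hm1 v0 w hw (fun h => hw2 h.symm)).2]
    exact diam v0 w hw (fun h => hw2 h.symm)
  -- the degree vector is an eigenvector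
  have dpos : ∀ x, 0 < dg G x := by
    intro x
    obtain ⟨w, hw⟩ := hnb x
    refine Finset.sum_pos' (fun u _ => am_nonneg G x u) ⟨w, mem_univ w, ?_⟩
    rw [am_adj hw]; norm_num
  set θ := a / 2 + 1 + μ with hθ
  have hd : ∀ v, ∑ u, am G v u * dg G u = θ * dg G v := by
    intro v
    have h1 : ∑ w, s2 (am G) w v = ∑ u, am G v u * dg G u := by
      unfold s2 dg
      rw [Finset.sum_comm]
      refine Finset.sum_congr rfl fun u _ => ?_
      rw [Finset.mul_sum]
      refine Finset.sum_congr rfl fun w _ => ?_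
      rw [am_symm G w u, am_symm G u v]; ring
    have e1 : ∀ K : SimpleGraph V, ∑ x, am K x v = dg K v := fun K =>
      Finset.sum_congr rfl fun x _ => am_symm K x v
    have h2 : ∑ w, (s2 (am G) w v - a / 2 * am G w v) =
        ∑ u, am G v u * dg G u - a / 2 * dg G v := by
      rw [Finset.sum_sub_distrib, ← Finset.mul_sum, h1, e1]
    have h3 : ∑ w, (s2 (am G) w v - a / 2 * am G w v) = dg G v + μ * dg G v := by
      rw [← Finset.sum_erase_add _ _ (mem_univ v)]
      have h4 : ∑ w ∈ univ.erase v, (s2 (am G) w v - a / 2 * am G w v) =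
          ∑ w ∈ univ.erase v, μ * am (rel H (π v)) w v := by
        refine Finset.sum_congr rfl fun w hw => ?_
        rw [hm v w (Finset.ne_of_mem_erase hw), hmμ]
      rw [h4, s2_diag, am_diag]
      have h5 : ∑ w ∈ univ.erase v, μ * am (rel H (π v)) w v = μ * dg G v := by
        have h6 : ∑ w, μ * am (rel H (π v)) w v = μ * dg G v := by
          rw [← Finset.mul_sum, e1, dg_rel, hH.fix, dg_hyp hV hH hN]
        rw [← h6, ← Finset.sum_erase_add _ _ (mem_univ v), am_diag]
        ring
      rw [h5]; ring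
    rw [h2] at h3
    rw [hθ]
    linarith
  have hdv : am G *ᵥ dg G = θ • dg G := by
    funext v
    exact hd v
  have hθ3 : θ ^ 3 = a * θ ^ 2 + b * θ + c := by
    have h1 : ((am G) ^ 3) *ᵥ dg G = (a • (am G) ^ 2 + b • am G + c • 1) *ᵥ dg G := by rw [cG]
    have p2 : ((am G) ^ 2) *ᵥ dg G = θ ^ 2 • dg G := by
      rw [sq, ← Matrix.mulVec_mulVec, hdv, Matrix.mulVec_smul, hdv, smul_smul, sq]
    have p3 : ((am G) ^ 3) *ᵥ dg G = θ ^ 3 • dg G := by
      rw [pow_succ, ← Matrix.mulVec_mulVec, hdv, Matrix.mulVec_smul, p2, smul_smul]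
      congr 1; ring
    rw [p3, Matrix.add_mulVec, Matrix.add_mulVec, Matrix.smul_mulVec, Matrix.smul_mulVec,
      Matrix.smul_mulVec, p2, hdv, Matrix.one_mulVec] at h1
    have h2 := congrFun h1 v0
    simp only [Pi.add_apply, Pi.smul_apply, smul_eq_mul] at h2
    have h3 := (dpos v0).ne'
    have h4 : (θ ^ 3 - (a * θ ^ 2 + b * θ + c)) * dg G v0 = 0 := by linear_combination h2
    exact sub_eq_zero.mp ((mul_eq_zero.mp h4).resolve_right h3)
  set Q : Matrix V V ℝ := (am G) ^ 2 + (θ - a) • am G + (θ ^ 2 - a * θ - b) • 1 with hQ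
  have hAQ : am G * Q = θ • Q := by
    have e1 : am G * Q = (am G) ^ 3 + (θ - a) • (am G) ^ 2 + (θ ^ 2 - a * θ - b) • am G := by
      rw [hQ, Matrix.mul_add, Matrix.mul_add, Matrix.mul_smul, Matrix.mul_smul, Matrix.mul_one,
        ← pow_succ', ← sq]
    rw [e1, cG, hQ]
    ext x y
    simp only [Matrix.add_apply, Matrix.smul_apply, smul_eq_mul, Matrix.one_apply]
    by_cases hxy : x = y
    · simp only [hxy, if_true]
      linear_combination (-1) * hθ3
    · simp only [hxy, if_false]
      ring
  have hPF : ∀ v, ∃ κ : ℝ, ∀ x, Q x v = κ * dg G x := by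
    intro v
    have : Nonempty V := ⟨v⟩
    refine perron G conn' (dg G) (fun x => Q x v) θ dpos hd ?_
    intro x
    have h := congrFun (congrFun hAQ x) v
    rw [Matrix.mul_apply] at h
    exact h
  choose κ hκ using hPF
  have hQn : ∀ v x, x ≠ v → ¬ G.Adj x v → κ v * dg G x = μ := by
    intro v x hx hxv
    rw [← hκ, hQ]
    simp only [Matrix.add_apply, Matrix.smul_apply, smul_eq_mul, Matrix.one_apply, s2_eq,
      am_nadj hxv, hx, if_false, mul_zero, add_zero]
    rw [← (hm1 v x hx hxv).2, hmμ]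
  -- a vertex of the largest degree
  have : Nonempty V := ⟨v0⟩
  obtain ⟨u0, -, hu0⟩ := Finset.exists_max_image univ (fun x => dg G x) univ_nonempty
  obtain ⟨v, hv1, hv2⟩ := hnn u0
  obtain ⟨x, y, hyv, hvx, hvy, hxy⟩ := nw hV hH hN v
  have h1 := hQn v y hyv (fun h => hvy h.symm)
  have h2 := hQn v u0 hv1.symm hv2
  have hκ0 : κ v ≠ 0 := by
    intro h0
    rw [h0, zero_mul] at h2
    exact μpos.ne h2
  have h3 : dg G y = dg G u0 := mul_left_cancel₀ hκ0 (h1.trans h2.symm)
  have h4 := hu0 x (mem_univ x)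
  linarith

end Pool.Agent.K7.H21.Sp
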