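import Pool.Agent.K7.H21.Sp.Iden

set_option autoImplicit false
set_option linter.unusedSectionVars false

/-!
# The characteristic polynomial of a hypomorphic matrix
-/

namespace Pool.Agent.K7.H21.Sp

open Matrix Polynomial

variable {V : Type} [Fintype V] [DecidableEq V]

/-- `B` is hypomorphic to `A` -/
def HypoM (A B : Matrix V V ℝ) : Prop :=
  ∀ v, ∃ σ : Equiv.Perm V, σ v = v ∧ ∀ x y, x ≠ v → y ≠ v → B (σ x) (σ y) = A x y

variable {A B : Matrix V V ℝ}

lemma hyp_Cm (h : HypoM A B) (v : V) : Cm B v v = Cm A v v := by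
  obtain ⟨σ, h1, h2⟩ := h v
  exact Cm_diag_perm A B v σ h1 h2

lemma pun_perm (v : V) (σ : Equiv.Perm V) (hσ : σ v = v)
    (h : ∀ x y, x ≠ v → y ≠ v → B (σ x) (σ y) = A x y) (x y : V) :
    pun B v (σ x) (σ y) = pun A v x y := by
  have hx : σ x = v ↔ x = v := ⟨fun e => σ.injective (e.trans hσ.symm), fun e => by rw [e, hσ]⟩
  have hy : σ y = v ↔ y = v := ⟨fun e => σ.injective (e.trans hσ.symm), fun e => by rw [e, hσ]⟩
  rw [pun_apply, pun_apply]
  simp only [hx, hy]
  by_cases h' : x = v ∨ y = v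
  · rw [if_pos h', if_pos h']
  · rw [if_neg h', if_neg h']
    rw [not_or] at h'
    exact h x y h'.1 h'.2

lemma Nn_perm (A B : Matrix V V ℝ) (σ : Equiv.Perm V) (h : ∀ x y, B (σ x) (σ y) = A x y) :
    Nn B = Nn A := by
  unfold Nn om
  rw [← Equiv.sum_comp σ]
  refine Finset.sum_congr rfl fun x _ => ?_
  rw [← Equiv.sum_comp σ]
  refine Finset.sum_congr rfl fun y _ => ?_
  exact Cm_perm A B σ h x y

lemma hyp_N (h : HypoM A B) (v : V) : Nn (pun B v) = Nn (pun A v) := by
  obtain ⟨σ, h1, h2⟩ := h v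
  exact Nn_perm _ _ σ (pun_perm v σ h1 h2)

lemma hyp_charpoly (h : HypoM A B) : ∃ c : ℝ, B.charpoly = A.charpoly + C c := by
  have h1 : derivative (B.charpoly - A.charpoly) = 0 := by
    rw [derivative_sub, Pool.Agent.H558R2.derivative_charpoly,
      Pool.Agent.H558R2.derivative_charpoly, trace, trace, sub_eq_zero]
    exact Finset.sum_congr rfl fun v _ => hyp_Cm h v
  have h2 := derivative_eq_zero.mp h1
  refine ⟨(B.charpoly - A.charpoly).coeff 0, ?_⟩
  rw [← eq_C_of_natDegree_eq_zero h2]
  ring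

lemma charpoly_sub_J (A : Matrix V V ℝ) :
    (A - Matrix.of (fun _ _ => (1 : ℝ))).charpoly = A.charpoly + Nn A := by
  have h : charmatrix (A - Matrix.of (fun _ _ => (1 : ℝ))) =
      charmatrix A + Matrix.of (fun _ _ => 1) := by
    ext1 x y
    rw [charmatrix_apply, Matrix.add_apply, charmatrix_apply]
    simp
    ring
  rw [Matrix.charpoly, h, det_add_rank_one _ (charpoly_ne_zero A)]
  rfl

lemma hyp_Nn (h : HypoM A B) : ∃ e : ℝ, Nn B = Nn A + C e := by
  obtain ⟨c, hc⟩ := hyp_charpoly h
  have h' : HypoM (A - Matrix.of (fun _ _ => (1 : ℝ))) (B - Matrix.of (fun _ _ => (1 : ℝ))) := by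
    intro v
    obtain ⟨σ, h1, h2⟩ := h v
    exact ⟨σ, h1, fun x y hx hy => by simp [h2 x y hx hy]⟩
  obtain ⟨d, hd⟩ := hyp_charpoly h'
  rw [charpoly_sub_J, charpoly_sub_J, hc] at hd
  refine ⟨d - c, ?_⟩
  rw [C_sub]
  linear_combination hd

lemma om_coeff (A : Matrix V V ℝ) (v : V) (k : ℕ) : (om A v).coeff k = ∑ y, cf A k v y := by
  unfold om
  rw [finsetSum_coeff]
  exact Finset.sum_congr rfl fun y _ => (cf_apply A k v y).symm

lemma om_coeff_ge (A : Matrix V V ℝ) (v : V) (k : ℕ) (hk : Fintype.card V ≤ k) :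
    (om A v).coeff k = 0 := by
  rw [om_coeff, cf_eq_zero A k hk]; simp

lemma om_coeff_top (A : Matrix V V ℝ) (v : V) (k : ℕ) (hk : k + 1 = Fintype.card V) :
    (om A v).coeff k = 1 := by
  rw [om_coeff, cf_top A k hk]
  simp [one_apply]

lemma om_coeff_top' (A : Matrix V V ℝ) (htr : trace A = 0) (v : V) (k : ℕ)
    (hk : k + 2 = Fintype.card V) : (om A v).coeff k = ∑ y, A v y := by
  rw [om_coeff, cf_top' A htr k hk]

lemma Nn_coeff_ge (A : Matrix V V ℝ) (k : ℕ) (hk : Fintype.card V ≤ k) : (Nn A).coeff k = 0 := by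
  unfold Nn
  rw [finsetSum_coeff]
  exact Finset.sum_eq_zero fun x _ => om_coeff_ge A x k hk

lemma Nn_coeff_top (A : Matrix V V ℝ) (k : ℕ) (hk : k + 1 = Fintype.card V) :
    (Nn A).coeff k = Fintype.card V := by
  unfold Nn
  rw [finsetSum_coeff, Finset.sum_congr rfl fun x _ => om_coeff_top A x k hk]
  simp

lemma natDegree_le_of_coeff {p : ℝ[X]} {N : ℕ} (h : ∀ k, N < k → p.coeff k = 0) :
    p.natDegree ≤ N := by
  exact natDegree_le_iff_coeff_eq_zero.mpr h

/-- **Tutte's theorem** for matrices, in the form of Godsil and McKay: hypomorphic symmetric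
matrices with zero diagonal have constant row sums or the same characteristic polynomials and
the same numbers of walks. -/
theorem tutte (hA : ∀ x y, A x y = A y x) (hB : ∀ x y, B x y = B y x) (dA : ∀ x, A x x = 0)
    (dB : ∀ x, B x x = 0) (h : HypoM A B) (hn : 3 ≤ Fintype.card V) :
    (∀ v w, ∑ y, B v y = ∑ y, B w y) ∨
    (B.charpoly = A.charpoly ∧ Nn B = Nn A ∧ ∀ v, om B v = om A v) := by
  obtain ⟨c, hc⟩ := hyp_charpoly h
  obtain ⟨e, he⟩ := hyp_Nn h
  obtain ⟨m, hm⟩ : ∃ m, m + 3 = Fintype.card V := ⟨Fintype.card V - 3, by omega⟩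
  have trA : trace A = 0 := by simp [trace, dA]
  have trB : trace B = 0 := by simp [trace, dB]
  -- the key identity
  have key : ∀ v, X * (om B v - om A v) * (om B v + om A v) =
      X * Cm A v v * C e - C c * (Nn (pun A v) - Cm A v v) := by
    intro v
    have h1 := main_identity A hA v (dA v)
    have h2 := main_identity B hB v (dB v)
    rw [hyp_Cm h, hyp_N h, hc, he] at h2
    linear_combination h1 - h2
  have pc1 : ∀ v, (Cm A v v).coeff (m + 2) = 1 := by
    intro v
    rw [← cf_apply, cf_top A _ (by omega)]; simp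
  have pc2 : ∀ v, (Cm A v v).coeff (m + 1) = 0 := by
    intro v
    rw [← cf_apply, cf_top' A trA _ (by omega), dA]
  have pc0 : ∀ v k, m + 3 ≤ k → (Cm A v v).coeff k = 0 := by
    intro v k hk
    rw [← cf_apply, cf_eq_zero A _ (by omega)]; rfl
  have const : ∀ v, om B v - om A v = C ((om B v - om A v).coeff 0) := by
    intro v
    by_cases hD : om B v - om A v = 0
    · rw [hD]; simp
    refine eq_C_of_natDegree_eq_zero ?_
    have hS : (om B v + om A v).natDegree = m + 2 := by
      refine natDegree_eq_of_le_of_coeff_ne_zero ?_ ?_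
      · refine natDegree_le_of_coeff fun k hk => ?_
        rw [coeff_add, om_coeff_ge B v k (by omega), om_coeff_ge A v k (by omega), add_zero]
      · rw [coeff_add, om_coeff_top B v _ (by omega), om_coeff_top A v _ (by omega)]
        norm_num
    have hS0 : om B v + om A v ≠ 0 := by
      intro h0
      rw [h0, natDegree_zero] at hS
      omega
    have h1 : (X * (om B v - om A v) * (om B v + om A v)).natDegree =
        1 + (om B v - om A v).natDegree + (m + 2) := by
      rw [natDegree_mul (mul_ne_zero X_ne_zero hD) hS0, natDegree_mul X_ne_zero hD, natDegree_X, hS]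
    have h2 : (X * (om B v - om A v) * (om B v + om A v)).natDegree ≤ m + 3 := by
      rw [key v]
      refine natDegree_le_of_coeff fun k hk => ?_
      obtain ⟨k', rfl⟩ : ∃ k', k = k' + 1 := ⟨k - 1, by omega⟩
      rw [coeff_sub, mul_assoc, coeff_X_mul, coeff_mul_C, coeff_C_mul, coeff_sub,
        pc0 v k' (by omega), pc0 v (k' + 1) (by omega), Nn_coeff_ge _ _ (by omega)]
      ring
    omega
  have c1 : ∀ v, 2 * (om B v - om A v).coeff 0 = e := by
    intro v
    have h1 := congrArg (fun p => coeff p (m + 3)) (key v)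
    rw [const v] at h1
    rw [mul_assoc, coeff_X_mul, coeff_C_mul, coeff_add, om_coeff_top B v _ (by omega),
      om_coeff_top A v _ (by omega), coeff_sub, coeff_sub, mul_assoc, coeff_X_mul, coeff_mul_C,
      pc1 v, coeff_C_mul, coeff_sub, Nn_coeff_ge _ _ (by omega), pc0 v _ le_rfl] at h1
    rw [coeff_sub]
    linarith
  have c2 : ∀ v, ∑ y, B v y = ∑ y, A v y := by
    intro v
    have h1 := congrArg (fun p => coeff p (m + 1)) (const v)
    rw [coeff_sub, om_coeff_top' B trB v _ (by omega), om_coeff_top' A trA v _ (by omega),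
      coeff_C_succ] at h1
    linarith
  have c3 : ∀ v, e * ∑ y, B v y = - c * (m + 2) := by
    intro v
    have h1 := congrArg (fun p => coeff p (m + 2)) (key v)
    rw [const v] at h1
    rw [mul_assoc, coeff_X_mul, coeff_C_mul, coeff_add, om_coeff_top' B trB v _ (by omega),
      om_coeff_top' A trA v _ (by omega), coeff_sub, coeff_sub, mul_assoc, coeff_X_mul,
      coeff_mul_C, pc2 v, coeff_C_mul, coeff_sub, Nn_coeff_top _ _ (by omega), pc1 v, ← c2 v,
      ← hm] at h1
    have h2 := c1 v
    push_cast at h1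
    rw [coeff_sub] at h2
    rw [← h2]
    linarith
  by_cases he0 : e = 0
  · right
    have hc0 : c = 0 := by
      have : Nonempty V := Fintype.card_pos_iff.mp (by omega)
      have h1 := c3 (Classical.arbitrary V)
      rw [he0, zero_mul] at h1
      have h2 : ((m : ℝ) + 2) ≠ 0 := by positivity
      have h3 : c * ((m : ℝ) + 2) = 0 := by linarith
      exact (mul_eq_zero.mp h3).resolve_right h2
    refine ⟨by rw [hc, hc0]; simp, by rw [he, he0]; simp, fun v => ?_⟩
    have h1 := const v
    have h2 := c1 v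
    rw [he0] at h2
    have h3 : (om B v - om A v).coeff 0 = 0 := by linarith
    rw [h3, C_0] at h1
    exact sub_eq_zero.mp h1
  · left
    intro v w
    have h1 := c3 v
    have h2 := c3 w
    rw [← h2] at h1
    exact mul_left_cancel₀ he0 h1

end Pool.Agent.K7.H21.Sp
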